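import Mathlib
import Pool.Agent.H469R2.NK.KL

/-! # Smoothing with Gaussians on the real line (helper70) -/

set_option autoImplicit false

open Finset MeasureTheory Complex
open Pool.Agent.H469R2.NK (e)

namespace Pool.Agent.K3h70.PS

/-- the Gaussian of height `a` and width `1 / a` -/
noncomputable def gau (a x : ℝ) : ℝ := a * Real.exp (-Real.pi * a ^ 2 * x ^ 2)

/-- its Fourier transform -/
noncomputable def ker (a ξ : ℝ) : ℝ := Real.exp (-Real.pi * ξ ^ 2 / a ^ 2)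

lemma gau_nonneg {a : ℝ} (ha : 0 ≤ a) (x : ℝ) : 0 ≤ gau a x := by unfold gau; positivity

lemma ker_pos (a ξ : ℝ) : 0 < ker a ξ := Real.exp_pos _

lemma ker_le_one (a ξ : ℝ) : ker a ξ ≤ 1 := by
  unfold ker
  rw [Real.exp_le_one_iff]
  have : 0 ≤ Real.pi * ξ ^ 2 / a ^ 2 := by positivity
  have h2 : -Real.pi * ξ ^ 2 / a ^ 2 = -(Real.pi * ξ ^ 2 / a ^ 2) := by ring
  rw [h2]; linarith

lemma norm_e' (x : ℝ) : ‖e x‖ = 1 := by
  unfold Pool.Agent.H469R2.NK.e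
  exact Complex.norm_exp_ofReal_mul_I _

lemma e_add' (x y : ℝ) : e (x + y) = e x * e y := by
  unfold Pool.Agent.H469R2.NK.e
  rw [← Complex.exp_add]
  congr 1
  push_cast
  ring

lemma e_zero' : e 0 = 1 := by
  unfold Pool.Agent.H469R2.NK.e
  simp

lemma continuous_e' : Continuous e := by
  unfold Pool.Agent.H469R2.NK.e
  fun_prop

lemma integrable_ker {a : ℝ} (ha : 0 < a) : Integrable (fun ξ : ℝ => ker a ξ) := by
  have h := integrable_exp_neg_mul_sq (show 0 < Real.pi / a ^ 2 by positivity)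
  refine h.congr (Filter.Eventually.of_forall fun ξ => ?_)
  unfold ker
  simp only
  congr 1
  ring

lemma continuous_ker (a : ℝ) : Continuous (ker a) := by
  unfold ker
  fun_prop

lemma integrable_ker_mul {a : ℝ} (ha : 0 < a) {f : ℝ → ℂ} (hf : Continuous f) {B : ℝ}
    (hB : ∀ ξ, ‖f ξ‖ ≤ B) : Integrable (fun ξ : ℝ => (ker a ξ : ℂ) * f ξ) := by
  have h1 := (integrable_ker ha).ofReal (𝕜 := ℂ)
  exact h1.mul_bdd hf.aestronglyMeasurable (Filter.Eventually.of_forall hB)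

lemma integral_ker_e {a : ℝ} (ha : 0 < a) (y : ℝ) :
    ∫ ξ : ℝ, (ker a ξ : ℂ) * e (ξ * y) = ((gau a y : ℝ) : ℂ) := by
  have hb : 0 < ((Real.pi / a ^ 2 : ℝ) : ℂ).re := by
    rw [Complex.ofReal_re]; positivity
  have h := fourierIntegral_gaussian hb ((2 * Real.pi * y : ℝ) : ℂ)
  have h2 : ∀ ξ : ℝ, (ker a ξ : ℂ) * e (ξ * y) =
      cexp (I * ((2 * Real.pi * y : ℝ) : ℂ) * ξ) * cexp (-((Real.pi / a ^ 2 : ℝ) : ℂ) * ξ ^ 2) := by
    intro ξ
    unfold ker Pool.Agent.H469R2.NK.e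
    rw [mul_comm, Complex.ofReal_exp]
    congr 2
    · push_cast; ring
    · push_cast; ring
  rw [integral_congr_ae (Filter.Eventually.of_forall h2), h]
  unfold gau
  have h3 : ((Real.pi : ℝ) : ℂ) / ((Real.pi / a ^ 2 : ℝ) : ℂ) = ((a ^ 2 : ℝ) : ℂ) := by
    rw [← Complex.ofReal_div]
    congr 1
    field_simp
  have h4 : (((a ^ 2 : ℝ) : ℂ)) ^ (1 / 2 : ℂ) = (a : ℂ) := by
    have : (1 / 2 : ℂ) = ((1 / 2 : ℝ) : ℂ) := by push_cast; ring
    rw [this, ← Complex.ofReal_cpow (by positivity)]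
    congr 1
    rw [← Real.sqrt_eq_rpow, Real.sqrt_sq ha.le]
  have h5 : -((2 * Real.pi * y : ℝ) : ℂ) ^ 2 / (4 * ((Real.pi / a ^ 2 : ℝ) : ℂ)) =
      ((-Real.pi * a ^ 2 * y ^ 2 : ℝ) : ℂ) := by
    rw [← Complex.ofReal_pow, ← Complex.ofReal_neg]
    rw [show (4 : ℂ) * ((Real.pi / a ^ 2 : ℝ) : ℂ) = ((4 * (Real.pi / a ^ 2) : ℝ) : ℂ) by
      push_cast; ring]
    rw [← Complex.ofReal_div]
    congr 1
    field_simp
    ring
  rw [h3, h4, h5, ← Complex.ofReal_exp, ← Complex.ofReal_mul]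

/-- the smoothed counting function, for a finite family of reals -/
lemma integral_ker_sum {ι : Type} (s : Finset ι) (y : ι → ℝ) {a : ℝ} (ha : 0 < a) :
    ∫ ξ : ℝ, (ker a ξ : ℂ) * ∑ i ∈ s, e (ξ * y i) = ((∑ i ∈ s, gau a (y i) : ℝ) : ℂ) := by
  have h1 : ∀ ξ : ℝ, (ker a ξ : ℂ) * ∑ i ∈ s, e (ξ * y i) =
      ∑ i ∈ s, (ker a ξ : ℂ) * e (ξ * y i) := fun ξ => Finset.mul_sum _ _ _
  rw [integral_congr_ae (Filter.Eventually.of_forall h1), integral_finsetSum]
  · rw [Finset.sum_congr rfl fun i _ => integral_ker_e ha (y i)]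
    push_cast
    rfl
  · intro i _
    refine integrable_ker_mul ha (B := 1) ?_ fun ξ => ?_
    · exact continuous_e'.comp (by fun_prop)
    · rw [norm_e']

lemma conj_e (x : ℝ) : (starRingEnd ℂ) (e x) = e (-x) := by
  unfold Pool.Agent.H469R2.NK.e
  rw [← Complex.exp_conj]
  congr 1
  rw [map_mul, Complex.conj_ofReal, Complex.conj_I]
  push_cast
  ring

lemma normSq_sum (R : Finset ℕ) (ξ : ℝ) :
    (((‖∑ r ∈ R, e (-(ξ * r))‖ ^ 2 : ℝ)) : ℂ) =
      ∑ p ∈ R ×ˢ R, e (ξ * ((p.2 : ℝ) - p.1)) := by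
  have h1 : (((‖∑ r ∈ R, e (-(ξ * r))‖ ^ 2 : ℝ)) : ℂ) =
      (∑ r ∈ R, e (-(ξ * r))) * (starRingEnd ℂ) (∑ r ∈ R, e (-(ξ * r))) := by
    rw [Complex.mul_conj, Complex.normSq_eq_norm_sq]
  rw [h1, map_sum, Finset.sum_mul_sum, ← Finset.sum_product']
  apply Finset.sum_congr rfl
  intro p _
  rw [conj_e, ← e_add']
  congr 1
  ring

/-- the weighted square mean -/
lemma integral_ker_normSq (R : Finset ℕ) {b : ℝ} (hb : 0 < b) :
    ∫ ξ : ℝ, ker b ξ * ‖∑ r ∈ R, e (-(ξ * r))‖ ^ 2 =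
      ∑ p ∈ R ×ˢ R, gau b ((p.2 : ℝ) - p.1) := by
  have h1 : ((∫ ξ : ℝ, ker b ξ * ‖∑ r ∈ R, e (-(ξ * r))‖ ^ 2 : ℝ) : ℂ) =
      ((∑ p ∈ R ×ˢ R, gau b ((p.2 : ℝ) - p.1) : ℝ) : ℂ) := by
    rw [← integral_ker_sum (R ×ˢ R) (fun p : ℕ × ℕ => (p.2 : ℝ) - p.1) hb, ← integral_complex_ofReal]
    apply integral_congr_ae
    refine Filter.Eventually.of_forall fun ξ => ?_
    simp only
    rw [Complex.ofReal_mul, normSq_sum]
  exact_mod_cast h1

/-- a sum of Gaussians of width at most one over integers -/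
lemma sum_gau_le (R : Finset ℕ) {b : ℝ} (hb : 1 ≤ b) (x : ℝ) :
    ∑ r ∈ R, gau b ((r : ℝ) - x) ≤ 4 * b := by
  have hgeo : ∀ S : Finset ℕ, ∑ j ∈ S, (1 / 2 : ℝ) ^ j ≤ 2 := by
    intro S
    have h1 : Summable (fun j : ℕ => (1 / 2 : ℝ) ^ j) := summable_geometric_two
    calc ∑ j ∈ S, (1 / 2 : ℝ) ^ j ≤ ∑' j : ℕ, (1 / 2 : ℝ) ^ j :=
          h1.sum_le_tsum S fun i _ => by positivity
      _ = 2 := tsum_geometric_two
  have hpt : ∀ (j : ℕ) (t : ℝ), (j : ℝ) ≤ |t| → Real.exp (-Real.pi * b ^ 2 * t ^ 2) ≤ (1 / 2 : ℝ) ^ j := by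
    intro j t ht
    have h1 : (j : ℝ) ≤ t ^ 2 := by
      have h2 : (j : ℝ) ≤ (j : ℝ) ^ 2 := by
        rcases Nat.eq_zero_or_pos j with h | h
        · simp [h]
        · have : (1 : ℝ) ≤ j := by exact_mod_cast h
          nlinarith
      have h3 : (j : ℝ) ^ 2 ≤ |t| ^ 2 := pow_le_pow_left₀ (by positivity) ht 2
      rw [sq_abs] at h3
      linarith
    have h4 : (1 / 2 : ℝ) ^ j = Real.exp (-(Real.log 2 * j)) := by
      rw [Real.exp_neg, mul_comm, Real.exp_nat_mul, Real.exp_log (by norm_num)]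
      rw [one_div, inv_pow]
    rw [h4, Real.exp_le_exp]
    have h5 : Real.log 2 ≤ Real.pi := by
      have := Real.log_two_lt_d9
      have := Real.pi_gt_three
      linarith
    have h6 : Real.log 2 * j ≤ Real.pi * t ^ 2 :=
      mul_le_mul h5 h1 (by positivity) (by positivity)
    have h7 : Real.pi * t ^ 2 ≤ Real.pi * b ^ 2 * t ^ 2 := by
      have : (1 : ℝ) ≤ b ^ 2 := one_le_pow₀ hb
      have h8 : 0 ≤ Real.pi * t ^ 2 := by positivity
      nlinarith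
    linarith
  -- split at `⌊x⌋`
  set z : ℤ := ⌊x⌋ with hz
  have hz1 : (z : ℝ) ≤ x := Int.floor_le x
  have hz2 : x < z + 1 := Int.lt_floor_add_one x
  have hsum : ∑ r ∈ R, Real.exp (-Real.pi * b ^ 2 * ((r : ℝ) - x) ^ 2) ≤ 4 := by
    rw [← Finset.sum_filter_add_sum_filter_not R (fun r : ℕ => (r : ℤ) ≤ z)]
    have h1 : ∑ r ∈ R.filter (fun r : ℕ => (r : ℤ) ≤ z), Real.exp (-Real.pi * b ^ 2 * ((r : ℝ) - x) ^ 2)
        ≤ 2 := by
      calc ∑ r ∈ R.filter (fun r : ℕ => (r : ℤ) ≤ z), Real.exp (-Real.pi * b ^ 2 * ((r : ℝ) - x) ^ 2)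
          ≤ ∑ r ∈ R.filter (fun r : ℕ => (r : ℤ) ≤ z), (1 / 2 : ℝ) ^ (z - r).toNat := by
            apply Finset.sum_le_sum
            intro r hr
            rw [mem_filter] at hr
            apply hpt
            have h2 : (((z - r).toNat : ℕ) : ℝ) = ((z - r : ℤ) : ℝ) := by
              have : (((z - r).toNat : ℕ) : ℤ) = z - r := Int.toNat_of_nonneg (by linarith [hr.2])
              exact_mod_cast this
            rw [h2]
            push_cast
            rw [abs_sub_comm]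
            exact le_trans (by linarith) (le_abs_self _)
        _ = ∑ j ∈ (R.filter (fun r : ℕ => (r : ℤ) ≤ z)).image (fun r : ℕ => (z - r).toNat),
              (1 / 2 : ℝ) ^ j := by
            rw [Finset.sum_image]
            intro r hr r' hr' h
            simp only [coe_filter, Set.mem_ofPred_eq] at hr hr'
            simp only at h
            omega
        _ ≤ 2 := hgeo _
    have h1' : ∑ r ∈ R.filter (fun r : ℕ => ¬ (r : ℤ) ≤ z),
        Real.exp (-Real.pi * b ^ 2 * ((r : ℝ) - x) ^ 2) ≤ 2 := by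
      calc ∑ r ∈ R.filter (fun r : ℕ => ¬ (r : ℤ) ≤ z), Real.exp (-Real.pi * b ^ 2 * ((r : ℝ) - x) ^ 2)
          ≤ ∑ r ∈ R.filter (fun r : ℕ => ¬ (r : ℤ) ≤ z), (1 / 2 : ℝ) ^ ((r : ℤ) - z - 1).toNat := by
            apply Finset.sum_le_sum
            intro r hr
            rw [mem_filter] at hr
            apply hpt
            have h2 : ((((r : ℤ) - z - 1).toNat : ℕ) : ℝ) = (((r : ℤ) - z - 1 : ℤ) : ℝ) := by
              have : ((((r : ℤ) - z - 1).toNat : ℕ) : ℤ) = (r : ℤ) - z - 1 :=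
                Int.toNat_of_nonneg (by have := hr.2; omega)
              exact_mod_cast this
            rw [h2]
            push_cast
            exact le_trans (by linarith) (le_abs_self _)
        _ = ∑ j ∈ (R.filter (fun r : ℕ => ¬ (r : ℤ) ≤ z)).image (fun r : ℕ => ((r : ℤ) - z - 1).toNat),
              (1 / 2 : ℝ) ^ j := by
            rw [Finset.sum_image]
            intro r hr r' hr' h
            simp only [coe_filter, Set.mem_ofPred_eq] at hr hr'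
            simp only at h
            omega
        _ ≤ 2 := hgeo _
    linarith
  unfold gau
  rw [← Finset.mul_sum]
  nlinarith

/-- the smoothed number of the representations `x = r + r' + y m` -/
noncomputable def J (R S : Finset ℕ) (y : ℕ → ℝ) (x a : ℝ) : ℝ :=
  ∑ m ∈ S, ∑ p ∈ R ×ˢ R, gau a (x - p.1 - p.2 - y m)

lemma J_diff {R S : Finset ℕ} {y : ℕ → ℝ} (x : ℝ) {lam w E : ℝ} (hlam : 1 ≤ lam) (hw : 0 < w)
    (hE0 : 0 ≤ E)
    (hE : ∀ ξ : ℝ, |ker lam ξ - ker w ξ| * ‖∑ m ∈ S, e (-ξ * y m)‖ ≤ E * ker (2 * lam) ξ) :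
    |J R S y x lam - J R S y x w| ≤ E * (R.card * (8 * lam)) := by
  have hlam0 : 0 < lam := by linarith
  set H : ℝ → ℂ := fun ξ => ∑ q ∈ S ×ˢ (R ×ˢ R), e (ξ * (x - q.2.1 - q.2.2 - y q.1)) with hH
  have hJ : ∀ a : ℝ, 0 < a → ((J R S y x a : ℝ) : ℂ) = ∫ ξ : ℝ, (ker a ξ : ℂ) * H ξ := by
    intro a ha
    rw [hH]
    rw [integral_ker_sum (S ×ˢ (R ×ˢ R)) (fun q => x - q.2.1 - q.2.2 - y q.1) ha]
    unfold J
    rw [Finset.sum_product]
  have hHfac : ∀ ξ, H ξ = e (ξ * x) * (∑ r ∈ R, e (-(ξ * r))) ^ 2 * ∑ m ∈ S, e (-ξ * y m) := by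
    intro ξ
    rw [hH]
    simp only
    rw [Finset.sum_product]
    rw [Finset.mul_sum]
    apply Finset.sum_congr rfl
    intro m _
    rw [sq, Finset.sum_mul_sum, ← Finset.sum_product', Finset.mul_sum, Finset.sum_mul]
    apply Finset.sum_congr rfl
    intro p _
    rw [← e_add', ← e_add', ← e_add']
    congr 1
    ring
  have hHcont : Continuous H := by
    rw [hH]
    refine continuous_finsetSum _ fun q _ => continuous_e'.comp (by fun_prop)
  have hHbd : ∀ ξ, ‖H ξ‖ ≤ ((S ×ˢ (R ×ˢ R)).card : ℝ) := by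
    intro ξ
    rw [hH]
    refine (norm_sum_le _ _).trans ?_
    rw [Finset.sum_congr rfl fun q _ => norm_e' _]
    simp
  have hI : ∀ a : ℝ, 0 < a → Integrable (fun ξ : ℝ => (ker a ξ : ℂ) * H ξ) := fun a ha =>
    integrable_ker_mul ha hHcont hHbd
  have h1 : ((J R S y x lam - J R S y x w : ℝ) : ℂ) =
      ∫ ξ : ℝ, ((ker lam ξ : ℂ) * H ξ - (ker w ξ : ℂ) * H ξ) := by
    rw [integral_sub (hI lam hlam0) (hI w hw), ← hJ lam hlam0, ← hJ w hw]
    push_cast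
    rfl
  have hFcont : Continuous (fun ξ : ℝ => ‖∑ r ∈ R, e (-(ξ * r))‖ ^ 2) := by
    have : Continuous (fun ξ : ℝ => ∑ r ∈ R, e (-(ξ * r))) :=
      continuous_finsetSum _ fun q _ => continuous_e'.comp (by fun_prop)
    exact this.norm.pow 2
  have hFbd : ∀ ξ : ℝ, ‖‖∑ r ∈ R, e (-(ξ * r))‖ ^ 2‖ ≤ (R.card : ℝ) ^ 2 := by
    intro ξ
    rw [Real.norm_of_nonneg (by positivity)]
    apply pow_le_pow_left₀ (norm_nonneg _)
    refine (norm_sum_le _ _).trans ?_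
    rw [Finset.sum_congr rfl fun q _ => norm_e' _]
    simp
  have hint : Integrable (fun ξ : ℝ => ker (2 * lam) ξ * ‖∑ r ∈ R, e (-(ξ * r))‖ ^ 2) :=
    (integrable_ker (by positivity : 0 < 2 * lam)).mul_bdd hFcont.aestronglyMeasurable
      (Filter.Eventually.of_forall hFbd)
  have h2 : |J R S y x lam - J R S y x w| =
      ‖∫ ξ : ℝ, ((ker lam ξ : ℂ) * H ξ - (ker w ξ : ℂ) * H ξ)‖ := by
    rw [← h1, Complex.norm_real, Real.norm_eq_abs]
  rw [h2]
  calc ‖∫ ξ : ℝ, ((ker lam ξ : ℂ) * H ξ - (ker w ξ : ℂ) * H ξ)‖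
      ≤ ∫ ξ : ℝ, E * (ker (2 * lam) ξ * ‖∑ r ∈ R, e (-(ξ * r))‖ ^ 2) := by
        apply norm_integral_le_of_norm_le (hint.const_mul E)
        refine Filter.Eventually.of_forall fun ξ => ?_
        rw [← sub_mul, norm_mul, hHfac, norm_mul, norm_mul, norm_e', one_mul, norm_pow]
        have h3 : ‖(ker lam ξ : ℂ) - (ker w ξ : ℂ)‖ = |ker lam ξ - ker w ξ| := by
          rw [← Complex.ofReal_sub, Complex.norm_real, Real.norm_eq_abs]
        rw [h3]
        have h4 := mul_le_mul_of_nonneg_right (hE ξ) (show 0 ≤ ‖∑ r ∈ R, e (-(ξ * r))‖ ^ 2 by positivity)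
        linarith
    _ = E * ∑ p ∈ R ×ˢ R, gau (2 * lam) ((p.2 : ℝ) - p.1) := by
        rw [integral_const_mul, integral_ker_normSq R (by positivity)]
    _ ≤ E * (R.card * (8 * lam)) := by
        apply mul_le_mul_of_nonneg_left _ hE0
        rw [Finset.sum_product]
        calc ∑ r ∈ R, ∑ r' ∈ R, gau (2 * lam) ((r' : ℝ) - r) ≤ ∑ r ∈ R, (4 * (2 * lam)) :=
              Finset.sum_le_sum fun r _ => sum_gau_le R (by linarith) r
          _ = R.card * (8 * lam) := by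
              rw [Finset.sum_const, nsmul_eq_mul]; ring

end Pool.Agent.K3h70.PS
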