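import Mathlib
import Pool.Agent.K3h70.PS.Gauss

/-! # The smoothed counting function from below and from above (helper70) -/

set_option autoImplicit false

open Finset

namespace Pool.Agent.K3h70.PS

lemma rpow_sub_le {c u m : ℝ} (hc : 1 ≤ c) (hm : 0 ≤ m) (hmu : m ≤ u) :
    u ^ c - m ^ c ≤ c * u ^ (c - 1) * (u - m) := by
  rcases hmu.eq_or_lt with h | h
  · subst h; simp
  have hu : 0 < u := by linarith
  have h1 : 1 + c * (m / u - 1) ≤ (1 + (m / u - 1)) ^ c :=
    one_add_mul_self_le_rpow_one_add (by have : 0 ≤ m / u := by positivity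
                                         linarith) hc
  rw [show 1 + (m / u - 1) = m / u by ring, Real.div_rpow hm hu.le, le_div_iff₀ (by positivity)] at h1
  have h2 : u ^ c = u ^ (c - 1) * u := by
    rw [← Real.rpow_add_one hu.ne', sub_add_cancel]
  have h3 : (1 + c * (m / u - 1)) * u ^ c = u ^ c + c * u ^ (c - 1) * (m - u) := by
    have : (m / u - 1) * u = m - u := by field_simp
    calc (1 + c * (m / u - 1)) * u ^ c = u ^ c + c * ((m / u - 1) * u ^ c) := by ring
      _ = u ^ c + c * (u ^ (c - 1) * ((m / u - 1) * u)) := by rw [h2]; ring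
      _ = _ := by rw [this]; ring
  rw [h3] at h1
  linarith

/-- one shift -/
lemma window {c : ℝ} (hc : 1 < c) {M : ℕ} {W u : ℝ} (hW : 0 < W) (T : ℕ)
    (hT : (T : ℝ) * (c * (2 * M : ℝ) ^ (c - 1)) ≤ W) (h1 : (M : ℝ) + T ≤ u) (h2 : u < 2 * M) :
    (T : ℝ) * (1 / W * Real.exp (-Real.pi)) ≤
      ∑ i ∈ range M, gau (1 / W) (u ^ c - ((M : ℝ) + i) ^ c) := by
  have hu0 : 0 ≤ u := le_trans (by positivity) h1
  set v : ℕ := ⌊u⌋₊ with hv
  have hv1 : (v : ℝ) ≤ u := Nat.floor_le hu0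
  have hv2 : u < v + 1 := Nat.lt_floor_add_one u
  have hv3 : M + T ≤ v := Nat.le_floor (by push_cast; exact h1)
  have hv4 : v < 2 * M := by
    have : (v : ℝ) < 2 * M := by linarith
    exact_mod_cast this
  have hsub : Ico (v - M + 1 - T) (v - M + 1) ⊆ range M := by
    intro i hi
    rw [mem_Ico] at hi
    rw [mem_range]
    omega
  have hcard : (Ico (v - M + 1 - T) (v - M + 1)).card = T := by
    rw [Nat.card_Ico]
    omega
  calc (T : ℝ) * (1 / W * Real.exp (-Real.pi))
      = ∑ i ∈ Ico (v - M + 1 - T) (v - M + 1), (1 / W * Real.exp (-Real.pi)) := by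
        rw [Finset.sum_const, hcard, nsmul_eq_mul]
    _ ≤ ∑ i ∈ Ico (v - M + 1 - T) (v - M + 1), gau (1 / W) (u ^ c - ((M : ℝ) + i) ^ c) := by
        apply Finset.sum_le_sum
        intro i hi
        rw [mem_Ico] at hi
        have h3 : M + i ≤ v := by omega
        have h4 : v + 1 ≤ M + i + T := by omega
        have h3' : (M : ℝ) + i ≤ v := by exact_mod_cast h3
        have h4' : (v : ℝ) + 1 ≤ M + i + T := by exact_mod_cast h4
        have h5 := rpow_sub_le hc.le (show (0 : ℝ) ≤ (M : ℝ) + i by positivity) (h3'.trans hv1)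
        have h6 : 0 ≤ u ^ c - ((M : ℝ) + i) ^ c := by
          have := Real.rpow_le_rpow (show (0 : ℝ) ≤ (M : ℝ) + i by positivity) (h3'.trans hv1)
            (show 0 ≤ c by linarith)
          linarith
        have h7 : u ^ (c - 1) ≤ (2 * M : ℝ) ^ (c - 1) := Real.rpow_le_rpow hu0 h2.le (by linarith)
        have h8 : u ^ c - ((M : ℝ) + i) ^ c ≤ W := by
          refine h5.trans (le_trans ?_ hT)
          calc c * u ^ (c - 1) * (u - (M + i)) ≤ c * (2 * M : ℝ) ^ (c - 1) * T := by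
                apply mul_le_mul _ (by linarith) (by linarith) (by positivity)
                exact mul_le_mul_of_nonneg_left h7 (by linarith)
            _ = T * (c * (2 * M : ℝ) ^ (c - 1)) := by ring
        unfold gau
        apply mul_le_mul_of_nonneg_left _ (by positivity)
        rw [Real.exp_le_exp]
        have h9 : (u ^ c - ((M : ℝ) + i) ^ c) ^ 2 ≤ W ^ 2 := pow_le_pow_left₀ h6 h8 2
        have h10 : (1 / W) ^ 2 * (u ^ c - ((M : ℝ) + i) ^ c) ^ 2 ≤ 1 := by
          rw [one_div, inv_pow, inv_mul_le_iff₀ (by positivity), mul_one]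
          exact h9
        have hpi := Real.pi_pos
        nlinarith
    _ ≤ _ := Finset.sum_le_sum_of_subset_of_nonneg hsub fun i _ _ => gau_nonneg (by positivity) _

lemma J_low {c : ℝ} (hc : 1 < c) {R : Finset ℕ} {M T : ℕ} {x W : ℝ} (hW : 0 < W)
    (hT : (T : ℝ) * (c * (2 * M : ℝ) ^ (c - 1)) ≤ W)
    (hx1 : ∀ r ∈ R, ∀ r' ∈ R, ((M : ℝ) + T) ^ c ≤ x - r - r') (hx2 : x < (2 * M : ℝ) ^ c) :
    (R.card : ℝ) ^ 2 * ((T : ℝ) * (1 / W * Real.exp (-Real.pi))) ≤
      J R (range M) (fun i => ((M : ℝ) + i) ^ c) x (1 / W) := by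
  have hc0 : 0 < c := by linarith
  unfold J
  rw [Finset.sum_comm]
  calc (R.card : ℝ) ^ 2 * ((T : ℝ) * (1 / W * Real.exp (-Real.pi)))
      = ∑ p ∈ R ×ˢ R, ((T : ℝ) * (1 / W * Real.exp (-Real.pi))) := by
        rw [Finset.sum_const, nsmul_eq_mul, Finset.card_product]
        push_cast
        ring
    _ ≤ _ := by
        apply Finset.sum_le_sum
        intro p hp
        rw [mem_product] at hp
        have h1 := hx1 p.1 hp.1 p.2 hp.2
        have h0 : 0 ≤ x - p.1 - p.2 := le_trans (by positivity) h1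
        set u : ℝ := (x - p.1 - p.2) ^ (1 / c) with hu
        have huc : u ^ c = x - p.1 - p.2 := by
          rw [hu, ← Real.rpow_mul h0, one_div, inv_mul_cancel₀ hc0.ne', Real.rpow_one]
        have h3 : (M : ℝ) + T ≤ u := by
          rw [hu, one_div, Real.le_rpow_inv_iff_of_pos (by positivity) h0 hc0]
          exact h1
        have h4 : u < 2 * M := by
          rw [hu, one_div, Real.rpow_inv_lt_iff_of_pos h0 (by positivity) hc0]
          have : (0 : ℝ) ≤ (p.1 : ℝ) := by positivity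
          have : (0 : ℝ) ≤ (p.2 : ℝ) := by positivity
          linarith
        have h5 := window hc hW T hT h3 h4
        rw [huc] at h5
        exact h5

open Classical in
/-- the good indices -/
noncomputable def good (R S : Finset ℕ) (y : ℕ → ℝ) (n : ℕ) : Finset ℕ :=
  S.filter fun m => ∃ r ∈ R, ∃ r' ∈ R, ⌊y m⌋₊ + (r + r') = n

lemma J_up {R S : Finset ℕ} {y : ℕ → ℝ} {n : ℕ} {lam : ℝ} (hlam : 1 ≤ lam)
    (hR : ∀ r ∈ R, ∀ r' ∈ R, r + r' ≤ n) :
    J R S y ((n : ℝ) + 1 / 2) lam ≤ (good R S y n).card * (R.card * (4 * lam)) +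
      S.card * ((R.card : ℝ) ^ 2 * (lam * Real.exp (-Real.pi * lam ^ 2 / 4))) := by
  classical
  have hgood : ∀ m, ∑ p ∈ R ×ˢ R, gau lam ((n : ℝ) + 1 / 2 - p.1 - p.2 - y m) ≤
      R.card * (4 * lam) := by
    intro m
    rw [Finset.sum_product]
    calc ∑ r ∈ R, ∑ r' ∈ R, gau lam ((n : ℝ) + 1 / 2 - r - r' - y m)
        ≤ ∑ r ∈ R, 4 * lam := by
          apply Finset.sum_le_sum
          intro r _
          calc ∑ r' ∈ R, gau lam ((n : ℝ) + 1 / 2 - r - r' - y m)
              = ∑ r' ∈ R, gau lam ((r' : ℝ) - ((n : ℝ) + 1 / 2 - r - y m)) := by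
                apply Finset.sum_congr rfl
                intro r' _
                unfold gau
                congr 2
                ring
            _ ≤ 4 * lam := sum_gau_le R hlam _
      _ = R.card * (4 * lam) := by rw [Finset.sum_const, nsmul_eq_mul]
  have hbad : ∀ m ∈ S, m ∉ good R S y n → ∑ p ∈ R ×ˢ R, gau lam ((n : ℝ) + 1 / 2 - p.1 - p.2 - y m) ≤
      (R.card : ℝ) ^ 2 * (lam * Real.exp (-Real.pi * lam ^ 2 / 4)) := by
    intro m hm hmg
    calc ∑ p ∈ R ×ˢ R, gau lam ((n : ℝ) + 1 / 2 - p.1 - p.2 - y m)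
        ≤ ∑ p ∈ R ×ˢ R, lam * Real.exp (-Real.pi * lam ^ 2 / 4) := by
          apply Finset.sum_le_sum
          intro p hp
          rw [mem_product] at hp
          have h1 : (1 / 2 : ℝ) ≤ |(n : ℝ) + 1 / 2 - p.1 - p.2 - y m| := by
            by_contra hcon
            rw [not_le, abs_lt] at hcon
            apply hmg
            rw [good, mem_filter]
            refine ⟨hm, p.1, hp.1, p.2, hp.2, ?_⟩
            have h2 := hR p.1 hp.1 p.2 hp.2
            have h3 : ⌊y m⌋₊ = n - (p.1 + p.2) := by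
              have e1 : ((n - (p.1 + p.2) : ℕ) : ℝ) = (n : ℝ) - p.1 - p.2 := by
                rw [Nat.cast_sub h2]; push_cast; ring
              have e2 : ((n - (p.1 + p.2) : ℕ) : ℝ) ≤ y m := by rw [e1]; linarith [hcon.2]
              have e0 : 0 ≤ y m := le_trans (by positivity) e2
              rw [Nat.floor_eq_iff e0]
              refine ⟨e2, ?_⟩
              rw [e1]; linarith [hcon.1]
            omega
          unfold gau
          apply mul_le_mul_of_nonneg_left _ (by linarith)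
          rw [Real.exp_le_exp]
          have h4 : (1 / 2 : ℝ) ^ 2 ≤ ((n : ℝ) + 1 / 2 - p.1 - p.2 - y m) ^ 2 := by
            rw [← sq_abs ((n : ℝ) + 1 / 2 - p.1 - p.2 - y m)]
            exact pow_le_pow_left₀ (by norm_num) h1 2
          have hpi := Real.pi_pos
          have h5 : 0 ≤ Real.pi * lam ^ 2 := by positivity
          nlinarith
      _ = _ := by
          rw [Finset.sum_const, nsmul_eq_mul, Finset.card_product]
          push_cast
          ring
  have hB0 : 0 ≤ (R.card : ℝ) ^ 2 * (lam * Real.exp (-Real.pi * lam ^ 2 / 4)) := by positivity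
  unfold J
  have hgs : good R S y n ⊆ S := Finset.filter_subset _ _
  rw [← Finset.sum_sdiff hgs, add_comm]
  apply add_le_add
  · calc ∑ m ∈ good R S y n, ∑ p ∈ R ×ˢ R, gau lam ((n : ℝ) + 1 / 2 - p.1 - p.2 - y m)
        ≤ ∑ m ∈ good R S y n, (R.card : ℝ) * (4 * lam) := Finset.sum_le_sum fun m _ => hgood m
      _ = _ := by rw [Finset.sum_const, nsmul_eq_mul]
  · calc ∑ m ∈ S \ good R S y n, ∑ p ∈ R ×ˢ R, gau lam ((n : ℝ) + 1 / 2 - p.1 - p.2 - y m)
        ≤ ∑ m ∈ S \ good R S y n, (R.card : ℝ) ^ 2 * (lam * Real.exp (-Real.pi * lam ^ 2 / 4)) :=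
          Finset.sum_le_sum fun m hm => by
            rw [mem_sdiff] at hm
            exact hbad m hm.1 hm.2
      _ = (S \ good R S y n).card * ((R.card : ℝ) ^ 2 * (lam * Real.exp (-Real.pi * lam ^ 2 / 4))) := by
          rw [Finset.sum_const, nsmul_eq_mul]
      _ ≤ _ := by
          apply mul_le_mul_of_nonneg_right _ hB0
          exact_mod_cast Finset.card_le_card Finset.sdiff_subset

/-- the assembly: many good indices -/
lemma good_card {c : ℝ} (hc : 1 < c) {R : Finset ℕ} (hR0 : R.Nonempty) {n M T : ℕ} {W lam E : ℝ}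
    (hW : 0 < W) (hlam : 1 ≤ lam) (hE0 : 0 ≤ E)
    (hT : (T : ℝ) * (c * (2 * M : ℝ) ^ (c - 1)) ≤ W)
    (hR : ∀ r ∈ R, ∀ r' ∈ R, ((M : ℝ) + T) ^ c + r + r' ≤ n) (hn : (n : ℝ) + 1 < (2 * M : ℝ) ^ c)
    (hE : ∀ ξ : ℝ, |ker lam ξ - ker (1 / W) ξ| *
      ‖∑ i ∈ range M, Pool.Agent.H469R2.NK.e (-ξ * ((M : ℝ) + i) ^ c)‖ ≤ E * ker (2 * lam) ξ)
    {q : ℝ} (hq : q ≤ (T : ℝ) * (1 / W * Real.exp (-Real.pi)))
    (h1 : E * (8 * lam) ≤ R.card * (q / 4)) (h2 : M * (lam * Real.exp (-Real.pi * lam ^ 2 / 4)) ≤ q / 4) :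
    (R.card : ℝ) * (q / 8) ≤ (good R (range M) (fun i => ((M : ℝ) + i) ^ c) n).card * lam := by
  have hRc : (0 : ℝ) < R.card := by exact_mod_cast Finset.card_pos.2 hR0
  have hlow := J_low (R := R) (x := (n : ℝ) + 1 / 2) hc hW hT (fun r hr r' hr' => by
    have := hR r hr r' hr'
    linarith) (by linarith)
  have hup := J_up (R := R) (S := range M) (y := fun i => ((M : ℝ) + i) ^ c) (n := n) hlam
    (fun r hr r' hr' => by
      have h3 := hR r hr r' hr'
      have h4 : (0 : ℝ) ≤ ((M : ℝ) + T) ^ c := by positivity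
      have h5 : ((r + r' : ℕ) : ℝ) ≤ n := by push_cast; linarith
      exact_mod_cast h5)
  have hd := J_diff (R := R) (S := range M) (y := fun i => ((M : ℝ) + i) ^ c) ((n : ℝ) + 1 / 2) hlam
    (show 0 < 1 / W by positivity) hE0 hE
  rw [card_range] at hup
  have hd' := (abs_le.1 hd).1
  have hq2 : (R.card : ℝ) ^ 2 * q ≤ (R.card : ℝ) ^ 2 * ((T : ℝ) * (1 / W * Real.exp (-Real.pi))) :=
    mul_le_mul_of_nonneg_left hq (by positivity)
  have h1' : E * (R.card * (8 * lam)) ≤ (R.card : ℝ) ^ 2 * (q / 4) := by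
    have := mul_le_mul_of_nonneg_left h1 hRc.le
    calc E * (R.card * (8 * lam)) = R.card * (E * (8 * lam)) := by ring
      _ ≤ R.card * (R.card * (q / 4)) := this
      _ = _ := by ring
  have h2' : M * ((R.card : ℝ) ^ 2 * (lam * Real.exp (-Real.pi * lam ^ 2 / 4))) ≤
      (R.card : ℝ) ^ 2 * (q / 4) := by
    have := mul_le_mul_of_nonneg_left h2 (show (0 : ℝ) ≤ (R.card : ℝ) ^ 2 by positivity)
    calc M * ((R.card : ℝ) ^ 2 * (lam * Real.exp (-Real.pi * lam ^ 2 / 4)))
        = (R.card : ℝ) ^ 2 * (M * (lam * Real.exp (-Real.pi * lam ^ 2 / 4))) := by ring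
      _ ≤ _ := this
  have h3 : (R.card : ℝ) ^ 2 * (q / 2) ≤
      (good R (range M) (fun i => ((M : ℝ) + i) ^ c) n).card * (R.card * (4 * lam)) := by
    have e1 : (R.card : ℝ) ^ 2 * q = (R.card : ℝ) ^ 2 * (q / 2) + (R.card : ℝ) ^ 2 * (q / 4) +
      (R.card : ℝ) ^ 2 * (q / 4) := by ring
    linarith
  have h4 : (R.card : ℝ) * (4 * (R.card * (q / 8))) ≤
      R.card * (4 * ((good R (range M) (fun i => ((M : ℝ) + i) ^ c) n).card * lam)) := by
    calc (R.card : ℝ) * (4 * (R.card * (q / 8))) = (R.card : ℝ) ^ 2 * (q / 2) := by ring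
      _ ≤ _ := h3
      _ = _ := by ring
  have h5 := le_of_mul_le_mul_left h4 hRc
  linarith

end Pool.Agent.K3h70.PS
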