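import Mathlib
import Pool.Agent.TH915.PW.Exp

/-! # Exponential sums with the phase `θ t ^ c` (helper70)

The derivative test of order `k + 1` of `TH915.PW` with the gain of the averages over the differences kept. -/

set_option autoImplicit false

open Finset

namespace Pool.Agent.K3h70.PS

open Pool.Agent.TH915.PW
open Pool.Agent.H469R2.NK (e norm_e norm_sum_neg Av Av_le Cq Cq_pos iterate harm_le)

/-- the exponential sum bound, with the gain -/
theorem exp_bound2 {k : ℕ} {A B lo hi : ℝ} {φ : ℕ → ℝ → ℝ} (hlo : 0 < lo) (hhi : 0 ≤ hi) (θ : ℝ)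
    (hθ : 0 < θ) (h : Hy k A B lo hi φ) (u : ℝ) (N L H : ℕ) (hN : 1 ≤ N) (hL : L ≤ N)
    (hu : A ≤ u) (huL : u + L ≤ B) (hH : 1 ≤ H) (hHN : H ≤ N)
    (hup : 2 * (θ * (hi * (H : ℝ) ^ k)) ≤ 1) :
    (‖∑ n ∈ range L, e (θ * φ 0 (u + n))‖ / N) ^ (2 ^ k) ≤
      Cq k * (1 / H + 2 / (θ * lo) / N * ((1 + Real.log H) / H) ^ k) := by
  have hN' : (1 : ℝ) ≤ N := by exact_mod_cast hN
  have hH' : (1 : ℝ) ≤ H := by exact_mod_cast hH
  have hL' : (L : ℝ) ≤ N := by exact_mod_cast hL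
  have hHN' : (H : ℝ) ≤ N := by exact_mod_cast hHN
  have hstep : ∀ ls : List ℕ, (‖SD φ θ u L ls‖ / N) ^ 2 ≤
      2 / H + 4 * ((∑ l ∈ Ico 1 H, ‖SD φ θ u L (l :: ls)‖ / N) / H) := by
    intro ls
    have h := SD_sq φ θ u L H ls
    set Sg := ∑ l ∈ Ico 1 H, ‖SD φ θ u L (l :: ls)‖ with hSg
    have hSg0 : 0 ≤ Sg := sum_nonneg fun _ _ => norm_nonneg _
    have h2 : (H : ℝ) * ‖SD φ θ u L ls‖ ^ 2 ≤ (2 * N) * (N + 2 * Sg) := by
      refine h.trans ?_
      have : (L : ℝ) + H ≤ 2 * N := by linarith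
      gcongr
    rw [← sum_div, ← hSg]
    have e1 : 2 / (H : ℝ) + 4 * (Sg / N / H) = ((2 * N) * (N + 2 * Sg)) / (H * N ^ 2) := by
      field_simp
      ring
    rw [e1, div_pow, div_le_div_iff₀ (by positivity) (by positivity)]
    calc ‖SD φ θ u L ls‖ ^ 2 * (H * N ^ 2) = ((H : ℝ) * ‖SD φ θ u L ls‖ ^ 2) * N ^ 2 := by ring
      _ ≤ _ := by gcongr
  have hit := iterate hH (fun ls => ‖SD φ θ u L ls‖ / N) (fun ls => by positivity) hstep k []
  have hSS : ∑ n ∈ range L, e (θ * φ 0 (u + n)) = SD φ θ u L [] := by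
    unfold SD
    simp only [List.sum_nil, Nat.sub_zero]
    rfl
  rw [hSS]
  refine hit.trans ?_
  have hC := Cq_pos k
  have h1 := Av_le (H := H) (T := fun ls => ‖SD φ θ u L ls‖ / N)
    (κ := 2 / (θ * lo) / N) k (by
      intro ls hlen hent
      have hpos : 0 < ls.prod := List.prod_pos fun l hl => (hent l hl).1
      have hle : ls.prod ≤ H ^ k := by
        have := List.prod_le_pow_card ls H (fun l hl => (hent l hl).2.le)
        rwa [hlen] at this
      have hle' : ((ls.prod : ℕ) : ℝ) ≤ (H : ℝ) ^ k := by exact_mod_cast hle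
      have h1 := SD_le hlo θ hθ h u L hu huL ls hpos hlen (by
        refine le_trans ?_ hup
        gcongr)
      have hP : (0 : ℝ) < (ls.prod : ℕ) := by exact_mod_cast hpos
      calc ‖SD φ θ u L ls‖ / N ≤ (2 / (θ * lo * (ls.prod : ℕ))) / N := by
            gcongr
        _ = _ := by field_simp) k [] (by simp) (by simp)
  have h2 : 0 ≤ ∑ l ∈ Ico 1 H, (1 : ℝ) / l := by positivity
  have h4 : 0 ≤ 2 / (θ * lo) / (N : ℝ) := by positivity
  have h5 : ((∑ l ∈ Ico 1 H, (1 : ℝ) / l) / H) ^ k ≤ ((1 + Real.log H) / H) ^ k := by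
    apply pow_le_pow_left₀ (by positivity)
    exact div_le_div_of_nonneg_right (harm_le H) (by positivity)
  have h6 : Av H (fun ls => ‖SD φ θ u L ls‖ / N) k [] ≤
      2 / (θ * lo) / N * ((1 + Real.log H) / H) ^ k := by
    calc Av H (fun ls => ‖SD φ θ u L ls‖ / N) k [] ≤
          2 / (θ * lo) / N * ((∑ l ∈ Ico 1 H, (1 : ℝ) / l) / H) ^ k / (([] : List ℕ).prod : ℕ) := h1
      _ = 2 / (θ * lo) / N * ((∑ l ∈ Ico 1 H, (1 : ℝ) / l) / H) ^ k := by simp
      _ ≤ _ := mul_le_mul_of_nonneg_left h5 h4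
  apply mul_le_mul_of_nonneg_left _ hC.le
  linarith

/-- the falling factorial `c (c - 1) ... (c - m + 1)` -/
noncomputable def ff (c : ℝ) (m : ℕ) : ℝ := ∏ i ∈ range m, (c - i)

theorem ff_succ (c : ℝ) (m : ℕ) : ff c (m + 1) = ff c m * (c - m) := by
  unfold ff
  rw [prod_range_succ]

theorem ff_pos {c : ℝ} {m : ℕ} (h : (m : ℝ) < c + 1) : 0 < ff c m := by
  unfold ff
  apply prod_pos
  intro i hi
  rw [mem_range] at hi
  have : (i : ℝ) + 1 ≤ m := by exact_mod_cast hi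
  linarith

/-- the derivatives of `t ^ c` -/
noncomputable def fp (c : ℝ) (m : ℕ) (t : ℝ) : ℝ := ff c m * t ^ (c - m)

lemma fp_der {c t : ℝ} (m : ℕ) (ht : 0 < t) : HasDerivAt (fp c m) (fp c (m + 1) t) t := by
  have e1 := (Real.hasDerivAt_rpow_const (p := c - m) (Or.inl ht.ne')).const_mul (ff c m)
  refine e1.congr_deriv ?_
  unfold fp
  rw [ff_succ]
  have : c - ((m + 1 : ℕ) : ℝ) = c - m - 1 := by push_cast; ring
  rw [this]
  ring

/-- the direct case: the last derivative is decreasing -/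
lemma hy_direct {c : ℝ} {k : ℕ} (hk : (k : ℝ) < c) (hk1 : c < k + 1) {M : ℝ} (hM : 1 ≤ M) :
    Hy k M (3 * M) (ff c (k + 1) * (3 * M) ^ (c - (k + 1))) (ff c (k + 1) * M ^ (c - (k + 1)))
      (fp c) := by
  have hf : 0 < ff c (k + 1) := ff_pos (by push_cast; linarith)
  refine ⟨fun m _ t ht => fp_der m (by linarith [ht.1]), ?_, ?_, ?_⟩
  · intro t ht
    unfold fp
    push_cast
    apply mul_le_mul_of_nonneg_left _ hf.le
    exact Real.rpow_le_rpow_of_nonpos (by linarith [ht.1]) ht.2 (by linarith)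
  · intro t ht
    unfold fp
    push_cast
    apply mul_le_mul_of_nonneg_left _ hf.le
    exact Real.rpow_le_rpow_of_nonpos (by linarith) ht.1 (by linarith)
  · intro t ht
    unfold fp
    have h0 : 0 < t := by linarith [ht.1]
    have h1 : ff c (k + 2) = ff c (k + 1) * (c - (k + 1 : ℕ)) := ff_succ c (k + 1)
    rw [h1]
    apply mul_nonpos_of_nonpos_of_nonneg _ (Real.rpow_nonneg h0.le _)
    apply mul_nonpos_of_nonneg_of_nonpos hf.le
    push_cast
    linarith

/-- the reversed phase -/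
noncomputable def rp (c S : ℝ) (j m : ℕ) (t : ℝ) : ℝ := (-1) ^ (m + j + 1) * fp c m (S - t)

lemma hy_reverse {c : ℝ} {j : ℕ} (hj : (j : ℝ) + 1 < c) {M : ℝ} (hM : 2 ≤ M) :
    Hy j M (3 * M) (ff c (j + 1) * (M / 2) ^ (c - (j + 1))) (ff c (j + 1) * (3 * M) ^ (c - (j + 1)))
      (rp c (4 * M - 1) j) := by
  have hf : 0 < ff c (j + 1) := ff_pos (by push_cast; linarith)
  have hf2 : 0 < ff c (j + 2) := ff_pos (by push_cast; linarith)
  have hS : ∀ t ∈ Set.Icc M (3 * M), M / 2 ≤ 4 * M - 1 - t ∧ 4 * M - 1 - t ≤ 3 * M := fun t ht =>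
    ⟨by linarith [ht.2], by linarith [ht.1]⟩
  have hsign : ((-1 : ℝ)) ^ (j + 1 + j + 1) = 1 := by
    have : j + 1 + j + 1 = 2 * (j + 1) := by ring
    rw [this, pow_mul]
    norm_num
  refine ⟨?_, ?_, ?_, ?_⟩
  · intro m _ t ht
    have h1 := fp_der (c := c) m (t := 4 * M - 1 - t) (by linarith [(hS t ht).1])
    have h2 : HasDerivAt (fun t : ℝ => 4 * M - 1 - t) (-1) t := by
      simpa using (hasDerivAt_id t).const_sub (4 * M - 1)
    have h3 := (h1.comp t h2).const_mul ((-1 : ℝ) ^ (m + j + 1))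
    refine h3.congr_deriv ?_
    unfold rp
    rw [show m + 1 + j + 1 = (m + j + 1) + 1 by ring, pow_succ]
    ring
  · intro t ht
    unfold rp fp
    rw [hsign, one_mul]
    push_cast
    apply mul_le_mul_of_nonneg_left _ hf.le
    exact Real.rpow_le_rpow (by linarith) (hS t ht).1 (by linarith)
  · intro t ht
    unfold rp fp
    rw [hsign, one_mul]
    push_cast
    apply mul_le_mul_of_nonneg_left _ hf.le
    exact Real.rpow_le_rpow (by linarith [(hS t ht).1]) (hS t ht).2 (by linarith)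
  · intro t ht
    unfold rp fp
    have h4 : ((-1 : ℝ)) ^ (j + 2 + j + 1) = -1 := by
      have : j + 2 + j + 1 = 2 * (j + 1) + 1 := by ring
      rw [this, pow_succ, pow_mul]
      norm_num
    rw [h4]
    have h0 : 0 < 4 * M - 1 - t := by linarith [(hS t ht).1]
    have h5 : 0 ≤ ff c (j + 2) * (4 * M - 1 - t) ^ (c - ((j + 2 : ℕ) : ℝ)) := by positivity
    linarith

/-- one derivative test -/
lemma test {c : ℝ} {k : ℕ} (hk : (k : ℝ) < c) (hk1 : c < k + 1) {j : ℕ} (hj : j ≤ k) :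
    ∃ a b : ℝ, 0 < a ∧ 0 < b ∧ ∀ (M L H : ℕ) (θ : ℝ), 2 ≤ M → L ≤ M → 1 ≤ H → H ≤ M → 0 < θ →
      2 * (θ * (b * (M : ℝ) ^ (c - (j + 1)) * (H : ℝ) ^ j)) ≤ 1 →
      (‖∑ i ∈ range L, e (θ * ((M : ℝ) + i) ^ c)‖ / M) ^ (2 ^ j) ≤
        Cq j * (1 / H + 2 / (θ * (a * (M : ℝ) ^ (c - (j + 1)))) / M *
          ((1 + Real.log H) / H) ^ j) := by
  rcases hj.eq_or_lt with h | h
  · subst h
    have hf : 0 < ff c (j + 1) := ff_pos (by push_cast; linarith)
    refine ⟨ff c (j + 1) * 3 ^ (c - (j + 1)), ff c (j + 1), by positivity, hf, ?_⟩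
    intro M L H θ hM hL hH hHM hθ hup
    have hMR : (2 : ℝ) ≤ M := by exact_mod_cast hM
    have hLR : (L : ℝ) ≤ M := by exact_mod_cast hL
    have e1 : (3 * (M : ℝ)) ^ (c - (j + 1)) = 3 ^ (c - (j + 1)) * (M : ℝ) ^ (c - (j + 1)) :=
      Real.mul_rpow (by norm_num) (by linarith)
    have h1 := exp_bound2 (by positivity) (by positivity) θ hθ
      (hy_direct hk hk1 (by linarith : (1 : ℝ) ≤ M)) (M : ℝ) M L H
      (by omega) hL le_rfl (by linarith) hH hHM hup
    rw [e1, ← mul_assoc (ff c (j + 1))] at h1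
    have e2 : ∀ i : ℕ, fp c 0 ((M : ℝ) + i) = ((M : ℝ) + i) ^ c := by
      intro i
      unfold fp ff
      simp
    simp only [e2] at h1
    exact h1
  · have hjk : (j : ℝ) + 1 ≤ k := by exact_mod_cast h
    have hf : 0 < ff c (j + 1) := ff_pos (by push_cast; linarith)
    refine ⟨ff c (j + 1) * (1 / 2) ^ (c - (j + 1)), ff c (j + 1) * 3 ^ (c - (j + 1)), by positivity,
      by positivity, ?_⟩
    intro M L H θ hM hL hH hHM hθ hup
    have hMR : (2 : ℝ) ≤ M := by exact_mod_cast hM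
    have hLR : (L : ℝ) ≤ M := by exact_mod_cast hL
    rcases Nat.eq_zero_or_pos L with hL0 | hL0
    · rw [hL0]
      simp only [range_zero, sum_empty, norm_zero, zero_div]
      rw [zero_pow (by positivity)]
      have hC := Cq_pos j
      have h0 : 0 ≤ Real.log H := Real.log_nonneg (by exact_mod_cast hH)
      positivity
    have e1 : (3 * (M : ℝ)) ^ (c - (j + 1)) = 3 ^ (c - (j + 1)) * (M : ℝ) ^ (c - (j + 1)) :=
      Real.mul_rpow (by norm_num) (by linarith)
    have e1' : ((M : ℝ) / 2) ^ (c - (j + 1)) = (1 / 2) ^ (c - (j + 1)) * (M : ℝ) ^ (c - (j + 1)) := by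
      rw [show (M : ℝ) / 2 = 1 / 2 * M by ring]
      exact Real.mul_rpow (by norm_num) (by linarith)
    set u : ℝ := 3 * M - L with hu
    have h1 := exp_bound2 (by positivity) (by positivity) θ hθ (hy_reverse (by linarith) hMR) u M L H
      (by omega) hL (by rw [hu]; linarith) (by rw [hu]; linarith) hH hHM
      (by rw [e1, ← mul_assoc (ff c (j + 1))]; exact hup)
    rw [e1', ← mul_assoc (ff c (j + 1))] at h1
    have h2 : ‖∑ n ∈ range L, e (θ * rp c (4 * M - 1) j 0 (u + n))‖ =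
        ‖∑ i ∈ range L, e (θ * ((M : ℝ) + i) ^ c)‖ := by
      have e3 : ∀ n ∈ range L, e (θ * rp c (4 * M - 1) j 0 (u + n)) =
          (fun i : ℕ => e ((-1) ^ (j + 1) * (θ * ((M : ℝ) + i) ^ c))) (L - 1 - n) := by
        intro n hn
        rw [mem_range] at hn
        simp only
        congr 1
        unfold rp fp ff
        have e4 : ((L - 1 - n : ℕ) : ℝ) = L - 1 - n := by
          rw [Nat.cast_sub (by omega), Nat.cast_sub hL0]; simp
        have e5 : 4 * (M : ℝ) - 1 - (u + n) = M + ((L - 1 - n : ℕ) : ℝ) := by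
          rw [hu, e4]; ring
        rw [e5]
        simp only [range_zero, prod_empty, Nat.cast_zero, sub_zero, one_mul]
        rw [zero_add]
        ring
      rw [Finset.sum_congr rfl e3]
      have e6 := Finset.sum_range_reflect
        (fun i : ℕ => e ((-1) ^ (j + 1) * (θ * ((M : ℝ) + i) ^ c))) L
      rw [e6]
      rcases neg_one_pow_eq_or ℝ (j + 1) with h3 | h3
      · simp only [h3, one_mul]
      · simp only [h3, neg_one_mul]
        exact norm_sum_neg (fun i => θ * ((M : ℝ) + i) ^ c) L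
    rw [h2] at h1
    exact h1

/-- **The exponential sum.** For `c > 1` not an integer, `e (θ m ^ c)`, `M ≤ m < M + L ≤ 2 M`, has a sum at
most `M ^ (1 - σ)` for all `M ^ (-c + δ) ≤ |θ| ≤ M ^ σ₁`. -/
theorem exp_sum {c : ℝ} {k : ℕ} (hk0 : 1 ≤ k) (hk : (k : ℝ) < c) (hk1 : c < k + 1) :
    ∃ σ₁ : ℝ, 0 < σ₁ ∧ ∀ δ : ℝ, 0 < δ → ∃ σ : ℝ, 0 < σ ∧ ∃ M₀ : ℕ, ∀ M L : ℕ, M₀ ≤ M → L ≤ M →
      ∀ θ : ℝ, (M : ℝ) ^ (-c + δ) ≤ |θ| → |θ| ≤ (M : ℝ) ^ σ₁ →
        ‖∑ i ∈ range L, e (θ * ((M : ℝ) + i) ^ c)‖ ≤ (M : ℝ) ^ (1 - σ) := by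
  have hkR : (1 : ℝ) ≤ k := by exact_mod_cast hk0
  -- the constants of the tests
  have htest : ∀ j : ℕ, ∃ a b : ℝ, 0 < a ∧ 0 < b ∧ (j ≤ k → ∀ (M L H : ℕ) (θ : ℝ), 2 ≤ M → L ≤ M →
      1 ≤ H → H ≤ M → 0 < θ →
      2 * (θ * (b * (M : ℝ) ^ (c - (j + 1)) * (H : ℝ) ^ j)) ≤ 1 →
      (‖∑ i ∈ range L, e (θ * ((M : ℝ) + i) ^ c)‖ / M) ^ (2 ^ j) ≤
        Cq j * (1 / H + 2 / (θ * (a * (M : ℝ) ^ (c - (j + 1)))) / M *
          ((1 + Real.log H) / H) ^ j)) := by
    intro j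
    by_cases hj : j ≤ k
    · obtain ⟨a, b, ha, hb, h⟩ := test hk hk1 hj
      exact ⟨a, b, ha, hb, fun _ => h⟩
    · exact ⟨1, 1, one_pos, one_pos, fun h => absurd h hj⟩
  choose a b ha hb htest using htest
  set d : ℝ := k + 1 - c with hd
  have hd0 : 0 < d := by rw [hd]; linarith
  have hd1 : d < 1 := by rw [hd]; linarith
  set κ : ℝ := d / (2 * (k + 1)) with hκ
  have hκ0 : 0 < κ := by positivity
  have hκk : κ * (2 * (k + 1)) = d := by rw [hκ]; field_simp
  have hκ1 : κ ≤ 1 / 4 := by nlinarith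
  refine ⟨d / 4, by positivity, fun δ hδ => ?_⟩
  -- a uniform constant
  set D : ℝ := ∑ j ∈ range (k + 1), Cq j * (2 + 2 / a j + (4 * b (j - 1) / a j) * 2 ^ j) with hD
  have hDj : ∀ j ≤ k, Cq j * (2 + 2 / a j + (4 * b (j - 1) / a j) * 2 ^ j) ≤ D := by
    intro j hj
    rw [hD]
    apply Finset.single_le_sum (f := fun j => Cq j * (2 + 2 / a j + (4 * b (j - 1) / a j) * 2 ^ j))
      (fun i _ => ?_) (mem_range.2 (by omega))
    have := Cq_pos i
    have := ha i
    have := hb (i - 1)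
    positivity
  have hD0 : 0 < D := by
    refine lt_of_lt_of_le ?_ (hDj 0 (by omega))
    have := Cq_pos 0
    have := ha 0
    have := hb (0 - 1)
    positivity
  set τ : ℝ := min κ δ with hτ
  have hτ0 : 0 < τ := lt_min hκ0 hδ
  have hlarge : ∃ M₀ : ℕ, ∀ M : ℕ, M₀ ≤ M → 2 ≤ M ∧ (∀ j ∈ range (k + 1), 2 * b j ≤ (M : ℝ) ^ (d / 4)) ∧
      D * (1 + Real.log M) ^ k ≤ (M : ℝ) ^ (τ / 2) := by
    have t1 : Filter.Tendsto (fun M : ℕ => (M : ℝ)) Filter.atTop Filter.atTop :=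
      tendsto_natCast_atTop_atTop
    have t2 := (tendsto_rpow_atTop (show 0 < d / 4 by positivity)).comp t1
    have e1 : ∀ j ∈ range (k + 1), ∀ᶠ M : ℕ in Filter.atTop, 2 * b j ≤ (M : ℝ) ^ (d / 4) :=
      fun j _ => t2.eventually_ge_atTop (2 * b j)
    have e2 := (Filter.eventually_all_finset (range (k + 1))).2 e1
    have t3 : ∀ᶠ M : ℝ in Filter.atTop, D * (1 + Real.log M) ^ k ≤ M ^ (τ / 2) := by
      have u1 : (fun M : ℝ => (1 + Real.log M) ^ k) =o[Filter.atTop] (fun M : ℝ => M ^ (τ / 2)) := by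
        have v1 : (fun M : ℝ => 1 + Real.log M) =o[Filter.atTop]
            (fun M : ℝ => M ^ (τ / (2 * k))) := by
          have w1 : (fun _ : ℝ => (1 : ℝ)) =o[Filter.atTop] (fun M : ℝ => M ^ (τ / (2 * k))) := by
            rw [Asymptotics.isLittleO_one_left_iff]
            refine Filter.Tendsto.congr' ?_ (tendsto_rpow_atTop (show 0 < τ / (2 * k) by positivity))
            filter_upwards [Filter.eventually_ge_atTop 0] with M hM
            rw [Real.norm_of_nonneg (by positivity)]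
          exact w1.add (isLittleO_log_rpow_atTop (by positivity))
        have v2 := v1.pow (n := k) (by omega)
        refine v2.congr' (by rfl) ?_
        filter_upwards [Filter.eventually_ge_atTop 0] with M hM
        rw [← Real.rpow_natCast, ← Real.rpow_mul hM]
        congr 1
        field_simp
      have u2 := u1.bound (c := 1 / D) (by positivity)
      filter_upwards [u2, Filter.eventually_ge_atTop 1] with M h1 h2
      have h5 : 0 ≤ Real.log M := Real.log_nonneg h2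
      rw [Real.norm_of_nonneg (by positivity), Real.norm_of_nonneg (by positivity)] at h1
      calc D * (1 + Real.log M) ^ k ≤ D * (1 / D * M ^ (τ / 2)) := by gcongr
        _ = M ^ (τ / 2) := by field_simp
    have e3 := t1.eventually t3
    obtain ⟨M₀, h⟩ := Filter.eventually_atTop.1 ((Filter.eventually_ge_atTop 2).and (e2.and e3))
    exact ⟨M₀, fun M hM => h M hM⟩
  obtain ⟨M₀, hM₀⟩ := hlarge
  refine ⟨τ / 2 ^ (k + 1), by positivity, M₀, fun M L hM hL θ' h1' h2' => ?_⟩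
  obtain ⟨hM2, hMb, hMD⟩ := hM₀ M hM
  have hMR : (2 : ℝ) ≤ M := by exact_mod_cast hM2
  have hM1 : (1 : ℝ) ≤ M := by linarith
  have hMpos : (0 : ℝ) < M := by linarith
  have hlog : 0 ≤ Real.log M := Real.log_nonneg hM1
  -- positive frequencies
  have main : ∀ θ : ℝ, 0 < θ → (M : ℝ) ^ (-c + δ) ≤ θ → θ ≤ (M : ℝ) ^ (d / 4) →
      ‖∑ i ∈ range L, e (θ * ((M : ℝ) + i) ^ c)‖ ≤ (M : ℝ) ^ (1 - τ / 2 ^ (k + 1)) := by
    intro θ hθ h1 h2
    set H : ℕ := ⌊(M : ℝ) ^ κ⌋₊ with hH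
    have hMκ : (1 : ℝ) ≤ (M : ℝ) ^ κ := Real.one_le_rpow hM1 hκ0.le
    have hH1 : 1 ≤ H := by rw [hH]; exact Nat.floor_pos.2 hMκ
    have hHκ : (H : ℝ) ≤ (M : ℝ) ^ κ := Nat.floor_le (by positivity)
    have hHR : (1 : ℝ) ≤ H := by exact_mod_cast hH1
    have hH2 : (M : ℝ) ^ κ ≤ 2 * H := by
      have : (M : ℝ) ^ κ < (H : ℝ) + 1 := Nat.lt_floor_add_one _
      linarith
    have hHM : H ≤ M := by
      have : (H : ℝ) ≤ M := by
        refine hHκ.trans ?_
        calc (M : ℝ) ^ κ ≤ (M : ℝ) ^ (1 : ℝ) := Real.rpow_le_rpow_of_exponent_le hM1 (by linarith)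
          _ = M := Real.rpow_one _
      exact_mod_cast this
    -- choice of the order
    have hPk : 2 * b k * θ ≤ (M : ℝ) ^ ((k : ℝ) + 1 - c - k * κ) := by
      have e1 := hMb k (mem_range.2 (by omega))
      have e2 : (M : ℝ) ^ (d / 4) * (M : ℝ) ^ (d / 4) = (M : ℝ) ^ (d / 2) := by
        rw [← Real.rpow_add hMpos]; congr 1; ring
      calc 2 * b k * θ ≤ (M : ℝ) ^ (d / 4) * (M : ℝ) ^ (d / 4) :=
            mul_le_mul e1 h2 hθ.le (by positivity)
        _ = (M : ℝ) ^ (d / 2) := e2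
        _ ≤ _ := by
            apply Real.rpow_le_rpow_of_exponent_le hM1
            nlinarith
    have hex : ∃ j : ℕ, j ≤ k ∧ 2 * b j * θ ≤ (M : ℝ) ^ ((j : ℝ) + 1 - c - j * κ) := ⟨k, le_rfl, hPk⟩
    classical
    set j := Nat.find hex with hj
    obtain ⟨hjk, hjP⟩ := Nat.find_spec hex
    rw [← hj] at hjk hjP
    have hCj := Cq_pos j
    have haj := ha j
    have hbj := hb j
    have hHj : (H : ℝ) ^ j ≤ (M : ℝ) ^ (j * κ) := by
      calc (H : ℝ) ^ j ≤ ((M : ℝ) ^ κ) ^ j := pow_le_pow_left₀ (by positivity) hHκ _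
        _ = (M : ℝ) ^ (j * κ) := by
            rw [← Real.rpow_natCast, ← Real.rpow_mul hMpos.le, mul_comm]
    have hup : 2 * (θ * (b j * (M : ℝ) ^ (c - (j + 1)) * (H : ℝ) ^ j)) ≤ 1 := by
      calc 2 * (θ * (b j * (M : ℝ) ^ (c - (j + 1)) * (H : ℝ) ^ j))
          = (2 * b j * θ) * ((M : ℝ) ^ (c - (j + 1)) * (H : ℝ) ^ j) := by ring
        _ ≤ (M : ℝ) ^ ((j : ℝ) + 1 - c - j * κ) * ((M : ℝ) ^ (c - (j + 1)) * (M : ℝ) ^ (j * κ)) := by
            apply mul_le_mul hjP _ (by positivity) (by positivity)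
            exact mul_le_mul_of_nonneg_left hHj (by positivity)
        _ = 1 := by
            rw [← Real.rpow_add hMpos, ← Real.rpow_add hMpos]
            rw [show (j : ℝ) + 1 - c - j * κ + (c - (j + 1) + j * κ) = 0 by ring, Real.rpow_zero]
    have hb1 := htest j hjk M L H θ hM2 hL hH1 hHM hθ hup
    have hlogH : 0 ≤ Real.log H := Real.log_nonneg hHR
    have hlogHM : Real.log H ≤ Real.log M := Real.log_le_log (by linarith) (by exact_mod_cast hHM)
    have hHinv : 1 / (H : ℝ) ≤ 2 * (M : ℝ) ^ (-κ) := by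
      rw [Real.rpow_neg hMpos.le, div_le_iff₀ (by linarith)]
      rw [mul_comm 2, mul_assoc, inv_mul_eq_div, le_div_iff₀ (by positivity)]
      linarith
    have hκτ : (M : ℝ) ^ (-κ) ≤ (M : ℝ) ^ (-τ) :=
      Real.rpow_le_rpow_of_exponent_le hM1 (by linarith [min_le_left κ δ])
    have hδτ : (M : ℝ) ^ (-δ) ≤ (M : ℝ) ^ (-τ) :=
      Real.rpow_le_rpow_of_exponent_le hM1 (by linarith [min_le_right κ δ])
    have hX : 0 < (M : ℝ) ^ (-τ) := by positivity
    have hL1 : (1 : ℝ) ≤ (1 + Real.log M) ^ j := one_le_pow₀ (by linarith)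
    have hLk : (1 + Real.log M) ^ j ≤ (1 + Real.log M) ^ k := pow_le_pow_right₀ (by linarith) hjk
    -- the second term
    have hsecond : 2 / (θ * (a j * (M : ℝ) ^ (c - (j + 1)))) / M * ((1 + Real.log H) / H) ^ j ≤
        (2 / a j + (4 * b (j - 1) / a j) * 2 ^ j) * ((1 + Real.log M) ^ j * (M : ℝ) ^ (-τ)) := by
      have e0 : 2 / (θ * (a j * (M : ℝ) ^ (c - (j + 1)))) / M =
          (2 / a j) * (1 / (θ * (M : ℝ) ^ (c - j))) := by
        have : (M : ℝ) ^ (c - j) = (M : ℝ) ^ (c - (j + 1)) * M := by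
          rw [← Real.rpow_add_one hMpos.ne']; congr 1; ring
        rw [this]
        field_simp
      rw [e0]
      rcases Nat.eq_zero_or_pos j with hj0 | hj0
      · rw [hj0]
        simp only [pow_zero, mul_one, one_mul]
        have e1 : 1 / (θ * (M : ℝ) ^ (c - ((0 : ℕ) : ℝ))) ≤ (M : ℝ) ^ (-δ) := by
          rw [Nat.cast_zero, sub_zero, div_le_iff₀ (by positivity)]
          calc (1 : ℝ) = (M : ℝ) ^ (-δ) * ((M : ℝ) ^ (-c + δ) * (M : ℝ) ^ c) := by
                rw [← Real.rpow_add hMpos, ← Real.rpow_add hMpos]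
                rw [show -δ + (-c + δ + c) = 0 by ring, Real.rpow_zero]
            _ ≤ (M : ℝ) ^ (-δ) * (θ * (M : ℝ) ^ c) := by gcongr
        have e2 : 0 ≤ 4 * b (0 - 1) / a 0 := by
          have := hb (0 - 1)
          have := ha 0
          positivity
        have e3 : 0 ≤ 2 / a 0 := by
          have := ha 0
          positivity
        have e4 := e1.trans hδτ
        calc 2 / a 0 * (1 / (θ * (M : ℝ) ^ (c - ((0 : ℕ) : ℝ)))) ≤ 2 / a 0 * (M : ℝ) ^ (-τ) :=
              mul_le_mul_of_nonneg_left e4 e3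
          _ ≤ (2 / a 0 + 4 * b (0 - 1) / a 0) * (M : ℝ) ^ (-τ) := by
              apply mul_le_mul_of_nonneg_right _ hX.le
              linarith
      · -- minimality
        have hmin : ¬ (j - 1 ≤ k ∧ 2 * b (j - 1) * θ ≤
            (M : ℝ) ^ (((j - 1 : ℕ) : ℝ) + 1 - c - ((j - 1 : ℕ) : ℝ) * κ)) :=
          Nat.find_min hex (by omega)
        have hlt : (M : ℝ) ^ (((j - 1 : ℕ) : ℝ) + 1 - c - ((j - 1 : ℕ) : ℝ) * κ) <
            2 * b (j - 1) * θ := by
          by_contra hcon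
          exact hmin ⟨by omega, not_lt.1 hcon⟩
        have hj1 : ((j - 1 : ℕ) : ℝ) = j - 1 := by
          rw [Nat.cast_sub hj0]; simp
        rw [hj1] at hlt
        have hb' := hb (j - 1)
        have e1 : 1 / (θ * (M : ℝ) ^ (c - j)) ≤ 2 * b (j - 1) * (M : ℝ) ^ (((j : ℝ) - 1) * κ) := by
          rw [div_le_iff₀ (by positivity)]
          calc (1 : ℝ) = (M : ℝ) ^ ((j : ℝ) - 1 + 1 - c - ((j : ℝ) - 1) * κ) *
                ((M : ℝ) ^ (((j : ℝ) - 1) * κ) * (M : ℝ) ^ (c - j)) := by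
                rw [← Real.rpow_add hMpos, ← Real.rpow_add hMpos]
                rw [show (j : ℝ) - 1 + 1 - c - ((j : ℝ) - 1) * κ + (((j : ℝ) - 1) * κ + (c - j)) = 0
                  by ring, Real.rpow_zero]
            _ ≤ (2 * b (j - 1) * θ) * ((M : ℝ) ^ (((j : ℝ) - 1) * κ) * (M : ℝ) ^ (c - j)) :=
                mul_le_mul_of_nonneg_right hlt.le (by positivity)
            _ = _ := by ring
        have e2 : ((1 + Real.log H) / H) ^ j ≤ 2 ^ j * (1 + Real.log M) ^ j * (M : ℝ) ^ (-(j * κ)) := by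
          calc ((1 + Real.log H) / H) ^ j ≤ ((1 + Real.log M) * (2 * (M : ℝ) ^ (-κ))) ^ j := by
                apply pow_le_pow_left₀ (by positivity)
                rw [div_eq_mul_one_div]
                apply mul_le_mul (by linarith) hHinv (by positivity) (by linarith)
            _ = 2 ^ j * (1 + Real.log M) ^ j * (M : ℝ) ^ (-(j * κ)) := by
                rw [mul_pow, mul_pow, ← Real.rpow_natCast ((M : ℝ) ^ (-κ)), ← Real.rpow_mul hMpos.le]
                rw [show -κ * (j : ℝ) = -(j * κ) by ring]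
                ring
        have e3 : (M : ℝ) ^ (((j : ℝ) - 1) * κ) * (M : ℝ) ^ (-(j * κ)) = (M : ℝ) ^ (-κ) := by
          rw [← Real.rpow_add hMpos]; congr 1; ring
        have e4 : 0 ≤ 2 / a j := by positivity
        calc 2 / a j * (1 / (θ * (M : ℝ) ^ (c - j))) * ((1 + Real.log H) / H) ^ j
            ≤ 2 / a j * (2 * b (j - 1) * (M : ℝ) ^ (((j : ℝ) - 1) * κ)) *
                (2 ^ j * (1 + Real.log M) ^ j * (M : ℝ) ^ (-(j * κ))) := by
              apply mul_le_mul _ e2 (by positivity) (by positivity)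
              exact mul_le_mul_of_nonneg_left e1 e4
          _ = (4 * b (j - 1) / a j) * 2 ^ j * ((1 + Real.log M) ^ j *
                ((M : ℝ) ^ (((j : ℝ) - 1) * κ) * (M : ℝ) ^ (-(j * κ)))) := by ring
          _ = (4 * b (j - 1) / a j) * 2 ^ j * ((1 + Real.log M) ^ j * (M : ℝ) ^ (-κ)) := by rw [e3]
          _ ≤ (4 * b (j - 1) / a j) * 2 ^ j * ((1 + Real.log M) ^ j * (M : ℝ) ^ (-τ)) := by gcongr
          _ ≤ (2 / a j + (4 * b (j - 1) / a j) * 2 ^ j) *
                ((1 + Real.log M) ^ j * (M : ℝ) ^ (-τ)) := by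
              apply mul_le_mul_of_nonneg_right _ (by positivity)
              linarith
    have hfirst : 1 / (H : ℝ) ≤ 2 * ((1 + Real.log M) ^ j * (M : ℝ) ^ (-τ)) := by
      calc 1 / (H : ℝ) ≤ 2 * (M : ℝ) ^ (-κ) := hHinv
        _ ≤ 2 * (M : ℝ) ^ (-τ) := by linarith
        _ ≤ _ := by nlinarith
    set Q : ℝ := ‖∑ i ∈ range L, e (θ * ((M : ℝ) + i) ^ c)‖ / M with hQ
    have hQ0 : 0 ≤ Q := by positivity
    have hb2 : Q ^ (2 ^ j) ≤ (M : ℝ) ^ (-(τ / 2)) := by
      calc Q ^ (2 ^ j) ≤ Cq j * (2 * ((1 + Real.log M) ^ j * (M : ℝ) ^ (-τ)) +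
            (2 / a j + (4 * b (j - 1) / a j) * 2 ^ j) * ((1 + Real.log M) ^ j * (M : ℝ) ^ (-τ))) := by
            refine hb1.trans ?_
            apply mul_le_mul_of_nonneg_left _ hCj.le
            linarith
        _ = (Cq j * (2 + 2 / a j + (4 * b (j - 1) / a j) * 2 ^ j)) *
            ((1 + Real.log M) ^ j * (M : ℝ) ^ (-τ)) := by ring
        _ ≤ D * ((1 + Real.log M) ^ k * (M : ℝ) ^ (-τ)) := by
            apply mul_le_mul (hDj j hjk) _ (by positivity) hD0.le
            exact mul_le_mul_of_nonneg_right hLk hX.le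
        _ = (D * (1 + Real.log M) ^ k) * (M : ℝ) ^ (-τ) := by ring
        _ ≤ (M : ℝ) ^ (τ / 2) * (M : ℝ) ^ (-τ) := mul_le_mul_of_nonneg_right hMD hX.le
        _ = (M : ℝ) ^ (-(τ / 2)) := by rw [← Real.rpow_add hMpos]; congr 1; ring
    have hQle : Q ≤ (M : ℝ) ^ (-(τ / 2 ^ (k + 1))) := by
      have h3 : Q = (Q ^ (2 ^ j)) ^ ((1 : ℝ) / 2 ^ j) := by
        rw [← Real.rpow_natCast, ← Real.rpow_mul hQ0]
        push_cast
        rw [mul_one_div_cancel (by positivity), Real.rpow_one]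
      rw [h3]
      calc (Q ^ (2 ^ j)) ^ ((1 : ℝ) / 2 ^ j) ≤ ((M : ℝ) ^ (-(τ / 2))) ^ ((1 : ℝ) / 2 ^ j) :=
            Real.rpow_le_rpow (by positivity) hb2 (by positivity)
        _ = (M : ℝ) ^ (-(τ / 2 ^ (j + 1))) := by
            rw [← Real.rpow_mul hMpos.le]
            congr 1
            rw [pow_succ]
            field_simp
        _ ≤ (M : ℝ) ^ (-(τ / 2 ^ (k + 1))) := by
            apply Real.rpow_le_rpow_of_exponent_le hM1
            have : τ / 2 ^ (k + 1) ≤ τ / 2 ^ (j + 1) := by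
              apply div_le_div_of_nonneg_left hτ0.le (by positivity)
              exact pow_le_pow_right₀ (by norm_num) (by omega)
            linarith
    rw [hQ, div_le_iff₀ hMpos] at hQle
    refine hQle.trans (le_of_eq ?_)
    rw [← Real.rpow_add_one hMpos.ne']
    congr 1
    ring
  have hMneg : 0 < (M : ℝ) ^ (-c + δ) := by positivity
  rcases lt_or_ge 0 θ' with h | h
  · rw [abs_of_pos h] at h1' h2'
    exact main θ' h h1' h2'
  · rw [abs_of_nonpos h] at h1' h2'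
    have h3 := main (-θ') (by linarith) h1' h2'
    rw [← norm_sum_neg]
    simp only [← neg_mul]
    exact h3

end Pool.Agent.K3h70.PS
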