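import Mathlib
import Pool.Agent.K3h70.PS.Exp
import Pool.Agent.K3h70.PS.Count

/-! # All frequencies (helper70) -/

set_option autoImplicit false

open Finset
open Pool.Agent.H469R2.NK (e)

namespace Pool.Agent.K3h70.PS

lemma one_sub_le_ker {a : ℝ} (ξ : ℝ) : 1 - Real.pi * ξ ^ 2 / a ^ 2 ≤ ker a ξ := by
  unfold ker
  have h := Real.add_one_le_exp (-Real.pi * ξ ^ 2 / a ^ 2)
  have h2 : -Real.pi * ξ ^ 2 / a ^ 2 = -(Real.pi * ξ ^ 2 / a ^ 2) := by ring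
  rw [h2] at h ⊢
  linarith

lemma ker_mono {a b : ℝ} (ha : 0 < a) (hab : a ≤ b) (ξ : ℝ) : ker a ξ ≤ ker b ξ := by
  unfold ker
  rw [Real.exp_le_exp]
  have h1 : Real.pi * ξ ^ 2 / b ^ 2 ≤ Real.pi * ξ ^ 2 / a ^ 2 := by
    apply div_le_div_of_nonneg_left (by positivity) (by positivity)
    exact pow_le_pow_left₀ ha.le hab 2
  have h2 : ∀ d : ℝ, -Real.pi * ξ ^ 2 / d ^ 2 = -(Real.pi * ξ ^ 2 / d ^ 2) := fun d => by ring
  rw [h2, h2]
  linarith

/-- the bound for all frequencies -/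
lemma all_freq {c σ₁ σ ρ τ : ℝ} (hc : 1 < c) (hρσ : ρ ≤ σ) (hρ4 : ρ ≤ 1 / 4)
    (hτ : 0 < τ) (hτσ : τ ≤ σ₁ / 2) {M : ℕ} (hM : 2 ≤ M)
    (hexp : ∀ θ : ℝ, (M : ℝ) ^ (-c + 1 / 4) ≤ |θ| → |θ| ≤ (M : ℝ) ^ σ₁ →
        ‖∑ i ∈ range M, e (θ * ((M : ℝ) + i) ^ c)‖ ≤ (M : ℝ) ^ (1 - σ))
    (h5 : 2 * Real.pi ≤ (M : ℝ) ^ (1 / 4 : ℝ)) (h6 : M * Real.exp (-(M : ℝ) ^ σ₁) ≤ 1) (ξ : ℝ) :
    |ker ((M : ℝ) ^ τ) ξ - ker (1 / (M : ℝ) ^ (c - 1 / 2)) ξ| *
      ‖∑ i ∈ range M, e (-ξ * ((M : ℝ) + i) ^ c)‖ ≤ (M : ℝ) ^ (1 - ρ) * ker (2 * (M : ℝ) ^ τ) ξ := by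
  have hMR : (2 : ℝ) ≤ M := by exact_mod_cast hM
  have hM1 : (1 : ℝ) ≤ M := by linarith
  have hMpos : (0 : ℝ) < M := by linarith
  set lam : ℝ := (M : ℝ) ^ τ with hlam
  set W : ℝ := (M : ℝ) ^ (c - 1 / 2) with hW
  have hlam1 : 1 ≤ lam := Real.one_le_rpow hM1 hτ.le
  have hW1 : 1 ≤ W := Real.one_le_rpow hM1 (by linarith)
  have hw0 : 0 < 1 / W := by positivity
  have hwl : 1 / W ≤ lam := by
    rw [div_le_iff₀ (by positivity)]
    nlinarith
  have hkl : ker (1 / W) ξ ≤ ker lam ξ := ker_mono hw0 hwl ξ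
  have hkk : ker lam ξ ≤ ker (2 * lam) ξ := ker_mono (by linarith) (by linarith) ξ
  have hkp := ker_pos (1 / W) ξ
  have hk2p := ker_pos (2 * lam) ξ
  have habs : |ker lam ξ - ker (1 / W) ξ| = ker lam ξ - ker (1 / W) ξ := abs_of_nonneg (by linarith)
  have hGM : ‖∑ i ∈ range M, e (-ξ * ((M : ℝ) + i) ^ c)‖ ≤ M := by
    refine (norm_sum_le _ _).trans ?_
    rw [Finset.sum_congr rfl fun q _ => norm_e' _]
    simp
  have hE1 : (1 : ℝ) ≤ (M : ℝ) ^ (1 - ρ) := Real.one_le_rpow hM1 (by linarith)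
  rw [habs]
  rcases le_or_gt |ξ| ((M : ℝ) ^ (-c + 1 / 4)) with h | h
  · -- low frequencies
    have hξ2 : ξ ^ 2 ≤ (M : ℝ) ^ (-2 * c + 1 / 2) := by
      rw [← sq_abs]
      calc |ξ| ^ 2 ≤ ((M : ℝ) ^ (-c + 1 / 4)) ^ 2 := pow_le_pow_left₀ (abs_nonneg _) h 2
        _ = (M : ℝ) ^ (-2 * c + 1 / 2) := by
            rw [← Real.rpow_natCast, ← Real.rpow_mul hMpos.le]
            congr 1
            push_cast
            ring
    have hξ3 : ξ ^ 2 ≤ 1 / 2 := by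
      refine hξ2.trans ?_
      calc (M : ℝ) ^ (-2 * c + 1 / 2) ≤ (M : ℝ) ^ (-1 : ℝ) :=
            Real.rpow_le_rpow_of_exponent_le hM1 (by linarith)
        _ = 1 / M := by rw [Real.rpow_neg_one, one_div]
        _ ≤ 1 / 2 := one_div_le_one_div_of_le (by norm_num) hMR
    have hd : ker lam ξ - ker (1 / W) ξ ≤ Real.pi * (ξ ^ 2 * W ^ 2) := by
      have e1 := ker_le_one lam ξ
      have e2 := one_sub_le_ker (a := 1 / W) ξ
      have e3 : Real.pi * ξ ^ 2 / (1 / W) ^ 2 = Real.pi * (ξ ^ 2 * W ^ 2) := by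
        field_simp
      rw [e3] at e2
      linarith
    have hξW : ξ ^ 2 * W ^ 2 ≤ (M : ℝ) ^ (-(1 / 2) : ℝ) := by
      have e1 : W ^ 2 = (M : ℝ) ^ (2 * c - 1) := by
        rw [hW, ← Real.rpow_natCast, ← Real.rpow_mul hMpos.le]
        congr 1
        push_cast
        ring
      rw [e1]
      calc ξ ^ 2 * (M : ℝ) ^ (2 * c - 1) ≤ (M : ℝ) ^ (-2 * c + 1 / 2) * (M : ℝ) ^ (2 * c - 1) :=
            mul_le_mul_of_nonneg_right hξ2 (by positivity)
        _ = (M : ℝ) ^ (-(1 / 2) : ℝ) := by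
            rw [← Real.rpow_add hMpos]; congr 1; ring
    have hk : 1 / 2 ≤ ker (2 * lam) ξ := by
      have e1 := one_sub_le_ker (a := 2 * lam) ξ
      have e2 : Real.pi * ξ ^ 2 / (2 * lam) ^ 2 ≤ 1 / 2 := by
        rw [div_le_iff₀ (by positivity)]
        have := Real.pi_lt_four
        have e3 : 1 ≤ lam ^ 2 := one_le_pow₀ hlam1
        have e4 : Real.pi * ξ ^ 2 ≤ 4 * (1 / 2) :=
          mul_le_mul this.le hξ3 (by positivity) (by norm_num)
        nlinarith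
      linarith
    calc (ker lam ξ - ker (1 / W) ξ) * ‖∑ i ∈ range M, e (-ξ * ((M : ℝ) + i) ^ c)‖
        ≤ (Real.pi * (M : ℝ) ^ (-(1 / 2) : ℝ)) * M := by
          apply mul_le_mul _ hGM (norm_nonneg _) (by positivity)
          exact hd.trans (mul_le_mul_of_nonneg_left hξW Real.pi_pos.le)
      _ = Real.pi * (M : ℝ) ^ (1 / 2 : ℝ) := by
          rw [mul_assoc, ← Real.rpow_add_one hMpos.ne']
          congr 2
          norm_num
      _ ≤ (1 / 2 * (M : ℝ) ^ (1 / 4 : ℝ)) * (M : ℝ) ^ (1 / 2 : ℝ) :=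
          mul_le_mul_of_nonneg_right (by linarith) (by positivity)
      _ = 1 / 2 * (M : ℝ) ^ (3 / 4 : ℝ) := by
          rw [mul_assoc, ← Real.rpow_add hMpos]
          congr 2
          norm_num
      _ ≤ 1 / 2 * (M : ℝ) ^ (1 - ρ) := by
          apply mul_le_mul_of_nonneg_left _ (by norm_num)
          exact Real.rpow_le_rpow_of_exponent_le hM1 (by linarith)
      _ = (M : ℝ) ^ (1 - ρ) * (1 / 2) := by ring
      _ ≤ (M : ℝ) ^ (1 - ρ) * ker (2 * lam) ξ := mul_le_mul_of_nonneg_left hk (by positivity)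
  · rcases le_or_gt |ξ| ((M : ℝ) ^ σ₁) with h' | h'
    · -- the middle
      have e1 := hexp (-ξ) (by rw [abs_neg]; exact h.le) (by rw [abs_neg]; exact h')
      have e2 : (M : ℝ) ^ (1 - σ) ≤ (M : ℝ) ^ (1 - ρ) :=
        Real.rpow_le_rpow_of_exponent_le hM1 (by linarith)
      rw [mul_comm]
      apply mul_le_mul (e1.trans e2) (by linarith) (by linarith) (by positivity)
    · -- the tail
      have e1 : (M : ℝ) ^ σ₁ ≤ ξ ^ 2 / lam ^ 2 := by
        rw [le_div_iff₀ (by positivity)]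
        have e2 : lam ^ 2 ≤ (M : ℝ) ^ σ₁ := by
          rw [hlam, ← Real.rpow_natCast, ← Real.rpow_mul hMpos.le]
          apply Real.rpow_le_rpow_of_exponent_le hM1
          push_cast
          linarith
        have e3 : ((M : ℝ) ^ σ₁) ^ 2 ≤ ξ ^ 2 := by
          rw [← sq_abs ξ]
          exact pow_le_pow_left₀ (by positivity) h'.le 2
        have e4 : 0 < (M : ℝ) ^ σ₁ := by positivity
        nlinarith
      have e5 : ker lam ξ ≤ ker (2 * lam) ξ * Real.exp (-(M : ℝ) ^ σ₁) := by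
        unfold ker
        rw [← Real.exp_add, Real.exp_le_exp]
        have e6 : -Real.pi * ξ ^ 2 / lam ^ 2 = -Real.pi * (ξ ^ 2 / lam ^ 2) := by ring
        have e7 : -Real.pi * ξ ^ 2 / (2 * lam) ^ 2 = -Real.pi / 4 * (ξ ^ 2 / lam ^ 2) := by
          field_simp
          ring
        rw [e6, e7]
        have := Real.pi_gt_three
        have e8 : 0 ≤ ξ ^ 2 / lam ^ 2 := by positivity
        nlinarith
      calc (ker lam ξ - ker (1 / W) ξ) * ‖∑ i ∈ range M, e (-ξ * ((M : ℝ) + i) ^ c)‖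
          ≤ (ker (2 * lam) ξ * Real.exp (-(M : ℝ) ^ σ₁)) * M := by
            apply mul_le_mul _ hGM (norm_nonneg _) (by positivity)
            linarith
        _ = ker (2 * lam) ξ * (M * Real.exp (-(M : ℝ) ^ σ₁)) := by ring
        _ ≤ ker (2 * lam) ξ * (M : ℝ) ^ (1 - ρ) :=
            mul_le_mul_of_nonneg_left (h6.trans hE1) hk2p.le
        _ = _ := by ring

end Pool.Agent.K3h70.PS
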