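import Mathlib
import Pool.Agent.K3h70.PS.Freq

/-! # `⌊m ^ c⌋` plus a sumset (helper70) -/

set_option autoImplicit false

open Finset Filter
open Pool.Agent.H469R2.NK (e)

namespace Pool.Agent.K3h70.PS

lemma tendsto_rpow_mul_exp {a b d : ℝ} (hb : 0 < b) (hd : 0 < d) :
    Tendsto (fun x : ℝ => x ^ a * Real.exp (-(b * x ^ d))) atTop (nhds 0) := by
  have h1 := tendsto_rpow_mul_exp_neg_mul_atTop_nhds_zero (a / d) b hb
  have h2 := h1.comp (tendsto_rpow_atTop hd)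
  refine h2.congr' ?_
  filter_upwards [eventually_ge_atTop 0] with x hx
  simp only [Function.comp_def]
  rw [← Real.rpow_mul hx, mul_div_cancel₀ _ hd.ne', neg_mul]

/-- **A sumset and one fractional power.** -/
theorem main {c : ℝ} (hc : 1 < c) (hc' : ∀ k : ℤ, c ≠ k) {ε : ℝ} (hε : 0 < ε) :
    ∃ η : ℝ, 0 < η ∧ η ≤ 1 / 2 ∧ ∀ c₁ : ℝ, 0 < c₁ → ∃ n₀ : ℕ, ∀ n : ℕ, n₀ ≤ n → ∀ R : Finset ℕ,
      (∀ r ∈ R, 8 * (r : ℝ) ≤ n) → c₁ * ((n : ℝ) / 4) ^ (1 - η) ≤ R.card →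
        ∃ G : Finset ℕ, (n : ℝ) ^ (1 / c - ε) ≤ G.card ∧
          ∀ m ∈ G, ∃ r ∈ R, ∃ r' ∈ R, ⌊(m : ℝ) ^ c⌋₊ + (r + r') = n := by
  classical
  have hc0 : 0 < c := by linarith
  set k : ℕ := ⌊c⌋₊ with hkdef
  have hk0 : 1 ≤ k := Nat.le_floor (by simpa using hc.le)
  have hkc : (k : ℝ) < c := by
    refine lt_of_le_of_ne (Nat.floor_le hc0.le) fun h => hc' (k : ℤ) ?_
    rw [← h]; push_cast; rfl
  have hck : c < k + 1 := Nat.lt_floor_add_one c
  obtain ⟨σ₁, hσ₁, hexp⟩ := exp_sum hk0 hkc hck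
  obtain ⟨σ, hσ, M₀, hexp⟩ := hexp (1 / 4) (by norm_num)
  set ρ : ℝ := min σ (1 / 4) with hρ
  have hρ0 : 0 < ρ := lt_min hσ (by norm_num)
  have hρσ : ρ ≤ σ := min_le_left _ _
  have hρ4 : ρ ≤ 1 / 4 := min_le_right _ _
  set τ : ℝ := min (σ₁ / 2) (min (ρ / 4) (ε / 8)) with hτ
  have hτ0 : 0 < τ := lt_min (by positivity) (lt_min (by positivity) (by positivity))
  have hτσ : τ ≤ σ₁ / 2 := min_le_left _ _
  have hτρ : τ ≤ ρ / 4 := (min_le_right _ _).trans (min_le_left _ _)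
  have hτε : τ ≤ ε / 8 := (min_le_right _ _).trans (min_le_right _ _)
  set η : ℝ := min (ρ / (4 * c)) (ε / 8) with hη
  have hη0 : 0 < η := lt_min (by positivity) (by positivity)
  have hηρ : c * η ≤ ρ / 4 := by
    calc c * η ≤ c * (ρ / (4 * c)) := mul_le_mul_of_nonneg_left (min_le_left _ _) hc0.le
      _ = ρ / 4 := by field_simp
  have hηε : η ≤ ε / 8 := min_le_right _ _
  have hη2 : η ≤ 1 / 2 := by nlinarith
  refine ⟨η, hη0, hη2, fun c₁ hc₁ => ?_⟩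
  set c₂ : ℝ := Real.exp (-Real.pi) / (2 * (c * 2 ^ (c - 1))) with hc₂
  have hc₂0 : 0 < c₂ := by positivity
  -- the side conditions for `M`
  have hM : ∀ᶠ M : ℕ in atTop, (M₀ ≤ M ∧ 2 ≤ M) ∧ (c * 2 ^ (c - 1) ≤ (M : ℝ) ^ (1 / 2 : ℝ)) ∧
      ((1 + 1 / (M : ℝ) ^ (1 / 2 : ℝ)) ^ c ≤ 3 / 2) ∧ (2 * (1 + 1 / (M : ℝ)) ^ c + 1 / M < 2 ^ c) ∧
      (2 * Real.pi ≤ (M : ℝ) ^ (1 / 4 : ℝ)) ∧ (M * Real.exp (-(M : ℝ) ^ σ₁) ≤ 1) ∧
      (64 / (c₁ * c₂) ≤ (M : ℝ) ^ (ρ / 2)) ∧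
      ((M : ℝ) ^ (c + τ) * Real.exp (-(Real.pi / 4 * (M : ℝ) ^ (2 * τ))) ≤ c₂ / 4) ∧
      (16 / (c₁ * c₂) ≤ (M : ℝ) ^ (c * η + τ)) := by
    have t1 : Tendsto (fun M : ℕ => (M : ℝ)) atTop atTop := tendsto_natCast_atTop_atTop
    have p1 := (tendsto_rpow_atTop (show (0 : ℝ) < 1 / 2 by norm_num)).eventually_ge_atTop
      (c * 2 ^ (c - 1))
    have p2 : ∀ᶠ x : ℝ in atTop, (1 + 1 / x ^ (1 / 2 : ℝ)) ^ c ≤ 3 / 2 := by
      have h1 : Tendsto (fun x : ℝ => 1 / x ^ (1 / 2 : ℝ)) atTop (nhds 0) := by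
        have := (tendsto_rpow_atTop (show (0 : ℝ) < 1 / 2 by norm_num)).inv_tendsto_atTop
        refine this.congr fun x => ?_
        simp
      have h2 : Tendsto (fun x : ℝ => (1 + 1 / x ^ (1 / 2 : ℝ)) ^ c) atTop (nhds ((1 + 0) ^ c)) :=
        (tendsto_const_nhds.add h1).rpow_const (Or.inr hc0.le)
      rw [add_zero, Real.one_rpow] at h2
      exact (h2.eventually_lt_const (show (1 : ℝ) < 3 / 2 by norm_num)).mono fun x hx => hx.le
    have p3 : ∀ᶠ x : ℝ in atTop, 2 * (1 + 1 / x) ^ c + 1 / x < 2 ^ c := by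
      have h1 : Tendsto (fun x : ℝ => 1 / x) atTop (nhds 0) := by
        have := tendsto_inv_atTop_zero (𝕜 := ℝ)
        refine this.congr fun x => ?_
        simp
      have h2 : Tendsto (fun x : ℝ => 2 * (1 + 1 / x) ^ c + 1 / x) atTop
          (nhds (2 * (1 + 0) ^ c + 0)) :=
        (((tendsto_const_nhds.add h1).rpow_const (Or.inr hc0.le)).const_mul 2).add h1
      rw [add_zero, add_zero, Real.one_rpow, mul_one] at h2
      apply h2.eventually_lt_const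
      calc (2 : ℝ) = 2 ^ (1 : ℝ) := (Real.rpow_one 2).symm
        _ < 2 ^ c := Real.rpow_lt_rpow_of_exponent_lt (by norm_num) hc
    have p4 := (tendsto_rpow_atTop (show (0 : ℝ) < 1 / 4 by norm_num)).eventually_ge_atTop
      (2 * Real.pi)
    have p5 : ∀ᶠ x : ℝ in atTop, x * Real.exp (-x ^ σ₁) ≤ 1 := by
      have h1 := tendsto_rpow_mul_exp (a := 1) (b := 1) one_pos hσ₁
      have h2 := h1.eventually_lt_const (show (0 : ℝ) < 1 by norm_num)
      refine h2.mono fun x hx => ?_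
      simp only [Real.rpow_one, one_mul] at hx
      exact hx.le
    have p6 := (tendsto_rpow_atTop (show (0 : ℝ) < ρ / 2 by positivity)).eventually_ge_atTop
      (64 / (c₁ * c₂))
    have p7 : ∀ᶠ x : ℝ in atTop, x ^ (c + τ) * Real.exp (-(Real.pi / 4 * x ^ (2 * τ))) ≤ c₂ / 4 := by
      have h1 := tendsto_rpow_mul_exp (a := c + τ) (b := Real.pi / 4) (by positivity)
        (show 0 < 2 * τ by positivity)
      exact (h1.eventually_lt_const (show (0 : ℝ) < c₂ / 4 by positivity)).mono fun x hx => hx.le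
    have p8 := (tendsto_rpow_atTop (show (0 : ℝ) < c * η + τ by positivity)).eventually_ge_atTop
      (16 / (c₁ * c₂))
    have q := t1.eventually (p1.and (p2.and (p3.and (p4.and (p5.and (p6.and (p7.and p8)))))))
    exact ((eventually_ge_atTop M₀).and (eventually_ge_atTop 2)).and q
  -- from `n` to `M`
  have hn : ∀ᶠ n : ℕ in atTop, 1 ≤ n ∧ (4 : ℝ) ≤ (n : ℝ) ^ (ε / 2) ∧ (2 : ℝ) ≤ ((n : ℝ) / 2) ^ (1 / c) := by
    have t1 : Tendsto (fun M : ℕ => (M : ℝ)) atTop atTop := tendsto_natCast_atTop_atTop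
    have p1 := t1.eventually
      ((tendsto_rpow_atTop (show (0 : ℝ) < ε / 2 by positivity)).eventually_ge_atTop 4)
    have p2 := ((tendsto_rpow_atTop (show (0 : ℝ) < 1 / c by positivity)).comp
      (t1.atTop_div_const (show (0 : ℝ) < 2 by norm_num))).eventually_ge_atTop 2
    exact (eventually_ge_atTop 1).and (p1.and p2)
  have htM : Tendsto (fun n : ℕ => ⌊((n : ℝ) / 2) ^ (1 / c)⌋₊) atTop atTop := by
    have t1 : Tendsto (fun M : ℕ => (M : ℝ)) atTop atTop := tendsto_natCast_atTop_atTop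
    exact tendsto_nat_floor_atTop.comp ((tendsto_rpow_atTop (show (0 : ℝ) < 1 / c by positivity)).comp
      (t1.atTop_div_const (show (0 : ℝ) < 2 by norm_num)))
  obtain ⟨n₀, hn₀⟩ := eventually_atTop.1 (hn.and (htM.eventually hM))
  refine ⟨n₀, fun n hn R hR hRcard => ?_⟩
  obtain ⟨⟨hn1, hn4, hn2⟩, hM⟩ := hn₀ n hn
  clear hn₀
  set M : ℕ := ⌊((n : ℝ) / 2) ^ (1 / c)⌋₊ with hMdef
  obtain ⟨⟨hMM₀, hM2⟩, e2, e3, e4, e5, e6, e7, e8, e9⟩ := hM
  have hnR : (1 : ℝ) ≤ n := by exact_mod_cast hn1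
  have hn2' : (0 : ℝ) ≤ (n : ℝ) / 2 := by positivity
  have hMle : (M : ℝ) ≤ ((n : ℝ) / 2) ^ (1 / c) := Nat.floor_le (by positivity)
  have hMlt : ((n : ℝ) / 2) ^ (1 / c) < M + 1 := Nat.lt_floor_add_one _
  have hMR : (2 : ℝ) ≤ M := by exact_mod_cast hM2
  have hM1 : (1 : ℝ) ≤ M := by linarith
  have hMpos : (0 : ℝ) < M := by linarith
  have hroot : (((n : ℝ) / 2) ^ (1 / c)) ^ c = (n : ℝ) / 2 := by
    rw [← Real.rpow_mul hn2', one_div, inv_mul_cancel₀ hc0.ne', Real.rpow_one]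
  have hMc : (M : ℝ) ^ c ≤ (n : ℝ) / 2 := by
    rw [← hroot]; exact Real.rpow_le_rpow hMpos.le hMle hc0.le
  have hMc' : (n : ℝ) / 2 < ((M : ℝ) + 1) ^ c := by
    rw [← hroot]; exact Real.rpow_lt_rpow (by positivity) hMlt hc0
  set W : ℝ := (M : ℝ) ^ (c - 1 / 2) with hW
  set lam : ℝ := (M : ℝ) ^ τ with hlam
  have hW0 : 0 < W := by positivity
  have hlam1 : 1 ≤ lam := Real.one_le_rpow hM1 hτ0.le
  have h2M : (2 * M : ℝ) ^ (c - 1) = 2 ^ (c - 1) * (M : ℝ) ^ (c - 1) :=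
    Real.mul_rpow (by norm_num) hMpos.le
  have hWd : W / (c * (2 * M : ℝ) ^ (c - 1)) = (M : ℝ) ^ (1 / 2 : ℝ) / (c * 2 ^ (c - 1)) := by
    rw [h2M, hW]
    have : (M : ℝ) ^ (c - 1 / 2) = (M : ℝ) ^ (1 / 2 : ℝ) * (M : ℝ) ^ (c - 1) := by
      rw [← Real.rpow_add hMpos]; congr 1; ring
    rw [this]
    field_simp
  set T : ℕ := ⌊W / (c * (2 * M : ℝ) ^ (c - 1))⌋₊ with hTdef
  have hT1 : (1 : ℝ) ≤ W / (c * (2 * M : ℝ) ^ (c - 1)) := by
    rw [hWd, le_div_iff₀ (by positivity), one_mul]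
    exact e2
  have hTle : (T : ℝ) ≤ W / (c * (2 * M : ℝ) ^ (c - 1)) := Nat.floor_le (by linarith)
  have hTlt : W / (c * (2 * M : ℝ) ^ (c - 1)) < T + 1 := Nat.lt_floor_add_one _
  have hT1' : (1 : ℝ) ≤ T := by
    have : 1 ≤ T := Nat.le_floor (by simpa using hT1)
    exact_mod_cast this
  have hTW : (T : ℝ) * (c * (2 * M : ℝ) ^ (c - 1)) ≤ W := by
    rwa [le_div_iff₀ (by positivity)] at hTle
  have h2c : (1 : ℝ) ≤ c * 2 ^ (c - 1) := by
    have : (1 : ℝ) ≤ 2 ^ (c - 1) := Real.one_le_rpow (by norm_num) (by linarith)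
    nlinarith
  have hTM : (T : ℝ) ≤ (M : ℝ) ^ (1 / 2 : ℝ) := by
    rw [hWd] at hTle
    exact hTle.trans (div_le_self (by positivity) h2c)
  -- geometric conditions
  have hgeo1 : ∀ r ∈ R, ∀ r' ∈ R, ((M : ℝ) + T) ^ c + r + r' ≤ n := by
    intro r hr r' hr'
    have h1 := hR r hr
    have h2 := hR r' hr'
    have h3 : ((M : ℝ) + T) ^ c ≤ 3 / 2 * ((n : ℝ) / 2) := by
      have h4 : (M : ℝ) + T ≤ M * (1 + 1 / (M : ℝ) ^ (1 / 2 : ℝ)) := by
        have h5 : (M : ℝ) * (1 / (M : ℝ) ^ (1 / 2 : ℝ)) = (M : ℝ) ^ (1 / 2 : ℝ) := by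
          have h6 : (M : ℝ) ^ (1 / 2 : ℝ) * (M : ℝ) ^ (1 / 2 : ℝ) = M := by
            rw [← Real.rpow_add hMpos]
            norm_num
          rw [mul_one_div, div_eq_iff (by positivity)]
          exact h6.symm
        rw [mul_add, mul_one, h5]
        linarith
      calc ((M : ℝ) + T) ^ c ≤ (M * (1 + 1 / (M : ℝ) ^ (1 / 2 : ℝ))) ^ c :=
            Real.rpow_le_rpow (by positivity) h4 hc0.le
        _ = (M : ℝ) ^ c * (1 + 1 / (M : ℝ) ^ (1 / 2 : ℝ)) ^ c :=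
            Real.mul_rpow hMpos.le (by positivity)
        _ ≤ ((n : ℝ) / 2) * (3 / 2) := mul_le_mul hMc e3 (by positivity) hn2'
        _ = _ := by ring
    linarith
  have hgeo2 : (n : ℝ) + 1 < (2 * M : ℝ) ^ c := by
    have h1 : ((M : ℝ) + 1) ^ c = (M : ℝ) ^ c * (1 + 1 / (M : ℝ)) ^ c := by
      rw [← Real.mul_rpow hMpos.le (by positivity)]
      congr 1
      field_simp
    have h2 : (1 : ℝ) ≤ (M : ℝ) ^ c * (1 / M) := by
      rw [mul_one_div, le_div_iff₀ hMpos, one_mul]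
      calc (M : ℝ) = (M : ℝ) ^ (1 : ℝ) := (Real.rpow_one _).symm
        _ ≤ (M : ℝ) ^ c := Real.rpow_le_rpow_of_exponent_le hM1 hc.le
    have h3 : (0 : ℝ) < (M : ℝ) ^ c := by positivity
    calc (n : ℝ) + 1 < 2 * ((M : ℝ) ^ c * (1 + 1 / (M : ℝ)) ^ c) + (M : ℝ) ^ c * (1 / M) := by
          rw [h1] at hMc'
          linarith
      _ = (M : ℝ) ^ c * (2 * (1 + 1 / (M : ℝ)) ^ c + 1 / M) := by ring
      _ ≤ (M : ℝ) ^ c * 2 ^ c := mul_le_mul_of_nonneg_left e4.le h3.le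
      _ = (2 * M : ℝ) ^ c := by rw [Real.mul_rpow (by norm_num) hMpos.le]; ring
  -- the value of `q`
  set q : ℝ := c₂ * (M : ℝ) ^ (1 - c) with hq
  have hq0 : 0 < q := by positivity
  have hqT : q ≤ (T : ℝ) * (1 / W * Real.exp (-Real.pi)) := by
    have h1 : W / (2 * (c * (2 * M : ℝ) ^ (c - 1))) ≤ T := by
      have h2 : W / (2 * (c * (2 * M : ℝ) ^ (c - 1))) = W / (c * (2 * M : ℝ) ^ (c - 1)) / 2 := by
        field_simp
      rw [h2]
      linarith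
    have h3 : q = W / (2 * (c * (2 * M : ℝ) ^ (c - 1))) * (1 / W * Real.exp (-Real.pi)) := by
      rw [hq, hc₂, h2M]
      have h4 : (M : ℝ) ^ (1 - c) * (M : ℝ) ^ (c - 1) = 1 := by
        rw [← Real.rpow_add hMpos]; simp
      have h5 : (M : ℝ) ^ (1 - c) = 1 / (M : ℝ) ^ (c - 1) := by
        rw [eq_div_iff (by positivity)]; exact h4
      rw [h5]
      field_simp
    rw [h3]
    exact mul_le_mul_of_nonneg_right h1 (by positivity)
  -- the size of `R`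
  have hRlow : c₁ / 2 * (M : ℝ) ^ (c * (1 - η)) ≤ R.card := by
    have h1 : (M : ℝ) ^ c / 2 ≤ (n : ℝ) / 4 := by linarith
    have h2 : ((M : ℝ) ^ c / 2) ^ (1 - η) ≤ ((n : ℝ) / 4) ^ (1 - η) :=
      Real.rpow_le_rpow (by positivity) h1 (by linarith)
    have h3 : (M : ℝ) ^ (c * (1 - η)) / 2 ≤ ((M : ℝ) ^ c / 2) ^ (1 - η) := by
      rw [Real.div_rpow (by positivity) (by norm_num), ← Real.rpow_mul hMpos.le]
      apply div_le_div_of_nonneg_left (by positivity) (by positivity)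
      calc (2 : ℝ) ^ (1 - η) ≤ 2 ^ (1 : ℝ) :=
            Real.rpow_le_rpow_of_exponent_le (by norm_num) (by linarith)
        _ = 2 := Real.rpow_one _
    calc c₁ / 2 * (M : ℝ) ^ (c * (1 - η)) = c₁ * ((M : ℝ) ^ (c * (1 - η)) / 2) := by ring
      _ ≤ c₁ * ((n : ℝ) / 4) ^ (1 - η) := mul_le_mul_of_nonneg_left (h3.trans h2) hc₁.le
      _ ≤ _ := hRcard
  have hRpos : (0 : ℝ) < R.card := lt_of_lt_of_le (by positivity) hRlow
  have hRne : R.Nonempty := Finset.card_pos.1 (by exact_mod_cast hRpos)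
  have hcond1 : (M : ℝ) ^ (1 - ρ) * (8 * lam) ≤ R.card * (q / 4) := by
    have h1 : (M : ℝ) ^ (1 - ρ) * lam = (M : ℝ) ^ (1 - ρ + τ) := by
      rw [hlam, ← Real.rpow_add hMpos]
    have h2 : (M : ℝ) ^ (1 - ρ + τ) * (M : ℝ) ^ (ρ / 2) ≤ (M : ℝ) ^ (c * (1 - η)) * (M : ℝ) ^ (1 - c) := by
      rw [← Real.rpow_add hMpos, ← Real.rpow_add hMpos]
      apply Real.rpow_le_rpow_of_exponent_le hM1
      nlinarith
    have h3 : 64 ≤ (c₁ * c₂) * (M : ℝ) ^ (ρ / 2) := by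
      rw [div_le_iff₀ (by positivity)] at e7
      linarith
    have hX : (0 : ℝ) < (M : ℝ) ^ (1 - ρ + τ) := by positivity
    calc (M : ℝ) ^ (1 - ρ) * (8 * lam) = 64 * (M : ℝ) ^ (1 - ρ + τ) / 8 := by rw [← h1]; ring
      _ ≤ (c₁ * c₂) * (M : ℝ) ^ (ρ / 2) * (M : ℝ) ^ (1 - ρ + τ) / 8 := by
          apply div_le_div_of_nonneg_right _ (by norm_num)
          exact mul_le_mul_of_nonneg_right h3 hX.le
      _ = (c₁ * c₂) / 8 * ((M : ℝ) ^ (1 - ρ + τ) * (M : ℝ) ^ (ρ / 2)) := by ring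
      _ ≤ (c₁ * c₂) / 8 * ((M : ℝ) ^ (c * (1 - η)) * (M : ℝ) ^ (1 - c)) :=
          mul_le_mul_of_nonneg_left h2 (by positivity)
      _ = c₁ / 2 * (M : ℝ) ^ (c * (1 - η)) * (q / 4) := by rw [hq]; ring
      _ ≤ R.card * (q / 4) := mul_le_mul_of_nonneg_right hRlow (by positivity)
  have hcond2 : M * (lam * Real.exp (-Real.pi * lam ^ 2 / 4)) ≤ q / 4 := by
    have h1 : lam ^ 2 = (M : ℝ) ^ (2 * τ) := by
      rw [hlam, ← Real.rpow_natCast, ← Real.rpow_mul hMpos.le]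
      congr 1
      push_cast
      ring
    have h2 : (M : ℝ) * lam = (M : ℝ) ^ (c + τ) * (M : ℝ) ^ (1 - c) := by
      rw [hlam, ← Real.rpow_add hMpos]
      nth_rewrite 1 [← Real.rpow_one (M : ℝ)]
      rw [← Real.rpow_add hMpos]
      congr 1
      ring
    have h3 : -Real.pi * lam ^ 2 / 4 = -(Real.pi / 4 * (M : ℝ) ^ (2 * τ)) := by rw [h1]; ring
    rw [h3, ← mul_assoc, h2]
    calc (M : ℝ) ^ (c + τ) * (M : ℝ) ^ (1 - c) * Real.exp (-(Real.pi / 4 * (M : ℝ) ^ (2 * τ)))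
        = ((M : ℝ) ^ (c + τ) * Real.exp (-(Real.pi / 4 * (M : ℝ) ^ (2 * τ)))) * (M : ℝ) ^ (1 - c) := by
          ring
      _ ≤ (c₂ / 4) * (M : ℝ) ^ (1 - c) := mul_le_mul_of_nonneg_right e8 (by positivity)
      _ = q / 4 := by rw [hq]; ring
  have hfreq := all_freq hc hρσ hρ4 hτ0 hτσ hM2 (fun θ h1 h2 => hexp M M hMM₀ le_rfl θ h1 h2) e5 e6
  have hgood := good_card hc hRne hW0 hlam1 (by positivity) hTW hgeo1 hgeo2 hfreq hqT hcond1 hcond2
  set Γ : Finset ℕ := good R (range M) (fun i => ((M : ℝ) + i) ^ c) n with hΓ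
  refine ⟨Γ.image (fun i => M + i), ?_, ?_⟩
  · rw [Finset.card_image_of_injective _ (fun a b h => Nat.add_left_cancel h)]
    have h1 : (M : ℝ) ^ (1 - 2 * (c * η + τ)) ≤ Γ.card := by
      have h2 : c₁ / 2 * (M : ℝ) ^ (c * (1 - η)) * (q / 8) ≤ Γ.card * lam :=
        (mul_le_mul_of_nonneg_right hRlow (by positivity)).trans hgood
      have h3 : c₁ / 2 * (M : ℝ) ^ (c * (1 - η)) * (q / 8) =
          (c₁ * c₂) / 16 * (M : ℝ) ^ (1 - c * η) := by
        have h4 : (M : ℝ) ^ (1 - c * η) = (M : ℝ) ^ (c * (1 - η)) * (M : ℝ) ^ (1 - c) := by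
          rw [← Real.rpow_add hMpos]; congr 1; ring
        rw [h4, hq]; ring
      rw [h3] at h2
      have h5 : 1 ≤ (c₁ * c₂) / 16 * (M : ℝ) ^ (c * η + τ) := by
        rw [div_le_iff₀ (by positivity)] at e9
        linarith
      have h6 : (M : ℝ) ^ (1 - 2 * (c * η + τ)) * lam ≤ Γ.card * lam := by
        refine le_trans ?_ h2
        have h7 : (M : ℝ) ^ (1 - 2 * (c * η + τ)) * lam * (M : ℝ) ^ (c * η + τ) = (M : ℝ) ^ (1 - c * η) := by
          rw [hlam, ← Real.rpow_add hMpos, ← Real.rpow_add hMpos]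
          congr 1
          ring
        rw [← h7]
        have hY : 0 ≤ (M : ℝ) ^ (1 - 2 * (c * η + τ)) * lam := by positivity
        calc (M : ℝ) ^ (1 - 2 * (c * η + τ)) * lam
            ≤ ((c₁ * c₂) / 16 * (M : ℝ) ^ (c * η + τ)) * ((M : ℝ) ^ (1 - 2 * (c * η + τ)) * lam) := by
              nlinarith
          _ = _ := by ring
      exact le_of_mul_le_mul_right h6 (by linarith)
    refine le_trans ?_ h1
    have h8 : (n : ℝ) ^ (1 / c) / 4 ≤ M := by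
      have h9 : (n : ℝ) ^ (1 / c) / 2 ≤ ((n : ℝ) / 2) ^ (1 / c) := by
        rw [Real.div_rpow (by positivity) (by norm_num)]
        apply div_le_div_of_nonneg_left (by positivity) (by positivity)
        calc (2 : ℝ) ^ (1 / c) ≤ 2 ^ (1 : ℝ) :=
              Real.rpow_le_rpow_of_exponent_le (by norm_num) (by
                rw [div_le_one hc0]; exact hc.le)
          _ = 2 := Real.rpow_one _
      linarith
    have hexp1 : 0 ≤ 1 - 2 * (c * η + τ) := by nlinarith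
    calc (n : ℝ) ^ (1 / c - ε) ≤ (n : ℝ) ^ (1 / c - ε / 2) * (1 / 4) := by
          have h10 : (n : ℝ) ^ (1 / c - ε) * (n : ℝ) ^ (ε / 2) = (n : ℝ) ^ (1 / c - ε / 2) := by
            rw [← Real.rpow_add (by linarith)]; congr 1; ring
          rw [← h10]
          have h11 : 0 < (n : ℝ) ^ (1 / c - ε) := by positivity
          nlinarith
      _ ≤ (n : ℝ) ^ (1 / c * (1 - 2 * (c * η + τ))) * (1 / 4) := by
          apply mul_le_mul_of_nonneg_right _ (by norm_num)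
          apply Real.rpow_le_rpow_of_exponent_le hnR
          have h12 : 1 / c * (1 - 2 * (c * η + τ)) = 1 / c - 2 * η - 2 * (τ / c) := by
            field_simp
            ring
          have h13 : τ / c ≤ τ := div_le_self hτ0.le hc.le
          rw [h12]
          linarith
      _ ≤ ((n : ℝ) ^ (1 / c) / 4) ^ (1 - 2 * (c * η + τ)) := by
          rw [Real.div_rpow (by positivity) (by norm_num), ← Real.rpow_mul (by positivity)]
          rw [div_eq_mul_one_div ((n : ℝ) ^ (1 / c * (1 - 2 * (c * η + τ))))]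
          apply mul_le_mul_of_nonneg_left _ (by positivity)
          apply one_div_le_one_div_of_le (by positivity)
          calc (4 : ℝ) ^ (1 - 2 * (c * η + τ)) ≤ 4 ^ (1 : ℝ) := by
                apply Real.rpow_le_rpow_of_exponent_le (by norm_num)
                have : 0 < c * η := by positivity
                linarith
            _ = 4 := Real.rpow_one _
      _ ≤ (M : ℝ) ^ (1 - 2 * (c * η + τ)) := Real.rpow_le_rpow (by positivity) h8 hexp1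
  · intro m hm
    rw [mem_image] at hm
    obtain ⟨i, hi, rfl⟩ := hm
    rw [hΓ, good, mem_filter] at hi
    obtain ⟨r, hr, r', hr', h⟩ := hi.2
    refine ⟨r, hr, r', hr', ?_⟩
    push_cast
    exact h

end Pool.Agent.K3h70.PS
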